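import Mathlib

set_option autoImplicit false

namespace Pool.Agent.H86.EH

open Finset

section Sampling

variable {α : Type*} [DecidableEq α]

/-- weight of `F` inside `E` for independent sampling with probabilities `p`. -/
noncomputable def wt (E : Finset α) (p : α → ℝ) (F : Finset α) : ℝ :=
  (∏ a ∈ F, p a) * ∏ a ∈ E \ F, (1 - p a)

lemma sum_wt (E : Finset α) (p : α → ℝ) : ∑ F ∈ E.powerset, wt E p F = 1 := by
  unfold wt
  rw [← Finset.prod_add]
  simp

lemma sum_wt_mul (E : Finset α) (p x : α → ℝ) :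
    ∑ F ∈ E.powerset, wt E p F * ∏ a ∈ F, x a = ∏ a ∈ E, (p a * x a + (1 - p a)) := by
  rw [Finset.prod_add]
  refine Finset.sum_congr rfl fun F _ => ?_
  unfold wt
  rw [Finset.prod_mul_distrib]
  ring

lemma sum_wt_superset (E : Finset α) (p : α → ℝ) (A : Finset α) (hA : A ⊆ E) :
    ∑ F ∈ E.powerset, (if A ⊆ F then wt E p F else 0) = ∏ a ∈ A, p a := by
  have h1 : ∏ a ∈ E, (p a + (if a ∈ A then 0 else 1 - p a)) = ∏ a ∈ A, p a := by
    rw [← Finset.prod_subset hA]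
    · refine Finset.prod_congr rfl fun a ha => ?_
      simp [ha]
    · intro a _ ha
      simp [ha]
  rw [← h1, Finset.prod_add]
  refine Finset.sum_congr rfl fun F hF => ?_
  rw [Finset.mem_powerset] at hF
  unfold wt
  by_cases hAF : A ⊆ F
  · rw [if_pos hAF]
    congr 1
    refine Finset.prod_congr rfl fun a ha => ?_
    have : a ∉ A := fun h => (Finset.mem_sdiff.1 ha).2 (hAF h)
    simp [this]
  · rw [if_neg hAF]
    obtain ⟨a, haA, haF⟩ := Finset.not_subset.1 hAF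
    have : ∏ a ∈ E \ F, (if a ∈ A then (0 : ℝ) else 1 - p a) = 0 := by
      apply Finset.prod_eq_zero (i := a)
      · exact Finset.mem_sdiff.2 ⟨hA haA, haF⟩
      · simp [haA]
    rw [this, mul_zero]

lemma wt_nonneg (E : Finset α) (p : α → ℝ) (h0 : ∀ a ∈ E, 0 ≤ p a) (h1 : ∀ a ∈ E, p a ≤ 1)
    (F : Finset α) (hF : F ⊆ E) : 0 ≤ wt E p F := by
  unfold wt
  apply mul_nonneg
  · exact Finset.prod_nonneg fun a ha => h0 a (hF ha)
  · exact Finset.prod_nonneg fun a ha => sub_nonneg.2 (h1 a (Finset.mem_sdiff.1 ha).1)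

/-- Sampling lemma (first moment method with a deletion step). -/
theorem exists_sample (E : Finset α) (p : α → ℝ) (h0 : ∀ a ∈ E, 0 ≤ p a) (h1 : ∀ a ∈ E, p a ≤ 1)
    {ι κ : Type*} (C : Finset ι) (c : ι → Finset α) (hc : ∀ i ∈ C, c i ⊆ E)
    (hne : ∀ i ∈ C, (c i).Nonempty)
    (S : Finset κ) (s : κ → Finset α) (hs : ∀ j ∈ S, s j ⊆ E) (t : ℕ)
    (h : (∑ i ∈ C, ∏ a ∈ c i, p a) / (t + 1) + 2 ^ t * ∑ j ∈ S, ∏ a ∈ s j, (1 - p a / 2) < 1) :
    ∃ F ⊆ E, (∀ i ∈ C, ¬ c i ⊆ F) ∧ ∀ j ∈ S, (F ∩ s j).Nonempty := by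
  classical
  -- the cost function
  let Φ : Finset α → ℝ := fun F =>
    (∑ i ∈ C, if c i ⊆ F then (1 : ℝ) else 0) / (t + 1) +
      2 ^ t * ∑ j ∈ S, ∏ a ∈ F, (if a ∈ s j then (1 / 2 : ℝ) else 1)
  have hexp : ∑ F ∈ E.powerset, wt E p F * Φ F =
      (∑ i ∈ C, ∏ a ∈ c i, p a) / (t + 1) + 2 ^ t * ∑ j ∈ S, ∏ a ∈ s j, (1 - p a / 2) := by
    have e1 : ∑ F ∈ E.powerset, wt E p F * ((∑ i ∈ C, if c i ⊆ F then (1 : ℝ) else 0) / (t + 1)) =
        (∑ i ∈ C, ∏ a ∈ c i, p a) / (t + 1) := by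
      have : ∀ F ∈ E.powerset, wt E p F * ((∑ i ∈ C, if c i ⊆ F then (1 : ℝ) else 0) / (t + 1)) =
          (∑ i ∈ C, if c i ⊆ F then wt E p F else 0) / (t + 1) := by
        intro F _
        rw [← mul_div_assoc, Finset.mul_sum]
        congr 1
        refine Finset.sum_congr rfl fun i _ => ?_
        split_ifs <;> simp
      rw [Finset.sum_congr rfl this, ← Finset.sum_div, Finset.sum_comm]
      congr 1
      refine Finset.sum_congr rfl fun i hi => ?_
      exact sum_wt_superset E p (c i) (hc i hi)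
    have e2 : ∑ F ∈ E.powerset, wt E p F *
        (2 ^ t * ∑ j ∈ S, ∏ a ∈ F, (if a ∈ s j then (1 / 2 : ℝ) else 1)) =
        2 ^ t * ∑ j ∈ S, ∏ a ∈ s j, (1 - p a / 2) := by
      have : ∀ F ∈ E.powerset, wt E p F *
          (2 ^ t * ∑ j ∈ S, ∏ a ∈ F, (if a ∈ s j then (1 / 2 : ℝ) else 1)) =
          2 ^ t * ∑ j ∈ S, wt E p F * ∏ a ∈ F, (if a ∈ s j then (1 / 2 : ℝ) else 1) := by
        intro F _
        rw [← Finset.mul_sum]
        ring
      rw [Finset.sum_congr rfl this, ← Finset.mul_sum, Finset.sum_comm]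
      congr 1
      refine Finset.sum_congr rfl fun j hj => ?_
      rw [sum_wt_mul, ← Finset.prod_subset (hs j hj)]
      · refine Finset.prod_congr rfl fun a ha => ?_
        rw [if_pos ha]
        ring
      · intro a _ ha
        rw [if_neg ha]
        ring
    have : ∀ F ∈ E.powerset, wt E p F * Φ F =
        wt E p F * ((∑ i ∈ C, if c i ⊆ F then (1 : ℝ) else 0) / (t + 1)) +
        wt E p F * (2 ^ t * ∑ j ∈ S, ∏ a ∈ F, (if a ∈ s j then (1 / 2 : ℝ) else 1)) := by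
      intro F _
      simp only [Φ]
      ring
    rw [Finset.sum_congr rfl this, Finset.sum_add_distrib, e1, e2]
  obtain ⟨F, hFE, hFlt⟩ : ∃ F ∈ E.powerset, Φ F < 1 := by
    by_contra hcon
    push Not at hcon
    have : ∑ F ∈ E.powerset, wt E p F ≤ ∑ F ∈ E.powerset, wt E p F * Φ F := by
      refine Finset.sum_le_sum fun F hF => ?_
      have hw := wt_nonneg E p h0 h1 F (Finset.mem_powerset.1 hF)
      nlinarith [hcon F hF]
    rw [sum_wt, hexp] at this
    linarith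
  rw [Finset.mem_powerset] at hFE
  -- number of bad cycles
  let B : Finset ι := C.filter fun i => c i ⊆ F
  have hsum1 : (∑ i ∈ C, if c i ⊆ F then (1 : ℝ) else 0) = (#B : ℝ) := by
    simp only [B, Finset.card_filter]
    push_cast
    rfl
  have hpos1 : 0 ≤ (∑ i ∈ C, if c i ⊆ F then (1 : ℝ) else 0) / ((t : ℝ) + 1) := by
    rw [hsum1]; positivity
  have hterm : ∀ j, 0 ≤ ∏ a ∈ F, (if a ∈ s j then (1 / 2 : ℝ) else 1) := by
    intro j
    refine Finset.prod_nonneg fun a _ => ?_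
    split_ifs <;> norm_num
  have hpos2 : 0 ≤ 2 ^ t * ∑ j ∈ S, ∏ a ∈ F, (if a ∈ s j then (1 / 2 : ℝ) else 1) := by
    apply mul_nonneg (by positivity)
    exact Finset.sum_nonneg fun j _ => hterm j
  have hB : #B ≤ t := by
    have h2 : (#B : ℝ) / (t + 1) < 1 := by
      rw [← hsum1]
      have : Φ F < 1 := hFlt
      simp only [Φ] at this
      linarith
    rw [div_lt_one (by positivity)] at h2
    have h3 : #B < t + 1 := by exact_mod_cast h2
    omega
  have hS : ∀ j ∈ S, t < #(F ∩ s j) := by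
    intro j hj
    have h2 : 2 ^ t * ∏ a ∈ F, (if a ∈ s j then (1 / 2 : ℝ) else 1) < 1 := by
      have h3 : ∏ a ∈ F, (if a ∈ s j then (1 / 2 : ℝ) else 1) ≤
          ∑ j ∈ S, ∏ a ∈ F, (if a ∈ s j then (1 / 2 : ℝ) else 1) :=
        Finset.single_le_sum (f := fun j => ∏ a ∈ F, (if a ∈ s j then (1 / 2 : ℝ) else 1))
          (fun j _ => hterm j) hj
      have h4 : (2 : ℝ) ^ t * ∏ a ∈ F, (if a ∈ s j then (1 / 2 : ℝ) else 1) ≤
          2 ^ t * ∑ j ∈ S, ∏ a ∈ F, (if a ∈ s j then (1 / 2 : ℝ) else 1) :=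
        mul_le_mul_of_nonneg_left h3 (by positivity)
      have : Φ F < 1 := hFlt
      simp only [Φ] at this
      linarith
    have h5 : ∏ a ∈ F, (if a ∈ s j then (1 / 2 : ℝ) else 1) = (1 / 2) ^ #(F ∩ s j) := by
      rw [Finset.prod_ite, Finset.prod_const, Finset.prod_const_one, mul_one,
        Finset.filter_mem_eq_inter]
    rw [h5] at h2
    by_contra hle
    push Not at hle
    have h6 : (1 / 2 : ℝ) ^ t ≤ (1 / 2) ^ #(F ∩ s j) :=
      pow_le_pow_of_le_one (by norm_num) (by norm_num) hle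
    have h7 : (2 : ℝ) ^ t * (1 / 2) ^ t = 1 := by
      rw [← mul_pow]; norm_num
    have h8 : (2 : ℝ) ^ t * (1 / 2) ^ t ≤ 2 ^ t * (1 / 2) ^ #(F ∩ s j) :=
      mul_le_mul_of_nonneg_left h6 (by positivity)
    linarith
  -- deletion
  have hBne : ∀ i ∈ B, (c i).Nonempty := fun i hi => hne i (Finset.mem_filter.1 hi).1
  have hex : ∀ i : B, ∃ a, a ∈ c i.1 := fun i => hBne i.1 i.2
  choose f hf using hex
  let D : Finset α := B.attach.image f
  have hD : #D ≤ t := by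
    calc #D ≤ #B.attach := Finset.card_image_le
      _ = #B := Finset.card_attach
      _ ≤ t := hB
  refine ⟨F \ D, (Finset.sdiff_subset).trans hFE, ?_, ?_⟩
  · intro i hi hsub
    have hiB : i ∈ B := Finset.mem_filter.2 ⟨hi, hsub.trans Finset.sdiff_subset⟩
    have h1 : f ⟨i, hiB⟩ ∈ F \ D := hsub (hf ⟨i, hiB⟩)
    have h2 : f ⟨i, hiB⟩ ∈ D := Finset.mem_image.2 ⟨⟨i, hiB⟩, Finset.mem_attach _ _, rfl⟩
    exact (Finset.mem_sdiff.1 h1).2 h2
  · intro j hj
    rw [← Finset.card_pos]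
    have h1 : #(F ∩ s j) ≤ #((F \ D) ∩ s j) + #D := by
      have : F ∩ s j ⊆ ((F \ D) ∩ s j) ∪ D := by
        intro a ha
        by_cases haD : a ∈ D
        · exact Finset.mem_union_right _ haD
        · rw [Finset.mem_inter] at ha
          exact Finset.mem_union_left _ (Finset.mem_inter.2 ⟨Finset.mem_sdiff.2 ⟨ha.1, haD⟩, ha.2⟩)
      exact (Finset.card_le_card this).trans (Finset.card_union_le _ _)
    have := hS j hj
    omega

end Sampling

end Pool.Agent.H86.EH
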