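import Mathlib
import Pool.Agent.H86.EH.Sampling

set_option autoImplicit false

namespace Pool.Agent.H86.EH

open Finset SimpleGraph

section Walks

variable {V : Type*} [Fintype V] [DecidableEq V] (G : SimpleGraph V) [DecidableRel G.Adj]

/-- total weight of the walks of length `n` from `u` to `v`. -/
noncomputable def walkWt (p : Sym2 V → ℝ) (n : ℕ) (u v : V) : ℝ :=
  ∑ w ∈ G.finsetWalkLength n u v, (w.edges.map p).prod

lemma walkWt_zero_le (p : Sym2 V → ℝ) (u v : V) :
    walkWt G p 0 u v = if u = v then 1 else 0 := by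
  unfold walkWt
  by_cases h : u = v
  · subst h
    simp [finsetWalkLength]
  · simp [finsetWalkLength, h]

lemma walkWt_succ (p : Sym2 V → ℝ) (n : ℕ) (u v : V) :
    walkWt G p (n + 1) u v = ∑ x ∈ G.neighborFinset u, p s(u, x) * walkWt G p n x v := by
  unfold walkWt
  rw [finsetWalkLength, Finset.sum_biUnion]
  · have : ∀ x : G.neighborSet u, ∑ w ∈ (G.finsetWalkLength n (x : V) v).map
        ⟨fun q => Walk.cons x.property q, fun _ _ h => by cases h; rfl⟩, (w.edges.map p).prod =
        p s(u, (x : V)) * ∑ w ∈ G.finsetWalkLength n (x : V) v, (w.edges.map p).prod := by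
      intro x
      rw [Finset.sum_map, Finset.mul_sum]
      refine Finset.sum_congr rfl fun w _ => ?_
      rfl
    rw [Finset.sum_congr rfl fun x _ => this x]
    exact (Finset.sum_subtype (G.neighborFinset u) (p := fun x => x ∈ G.neighborSet u)
      (fun x => by rw [mem_neighborFinset, mem_neighborSet])
      (fun x => p s(u, x) * ∑ w ∈ G.finsetWalkLength n x v, (w.edges.map p).prod)).symm
  · rintro ⟨x, hx⟩ - ⟨y, hy⟩ - hxy
    rw [Function.onFun, disjoint_iff_inf_le]
    intro p hp
    simp only [inf_eq_inter, mem_inter, mem_map] at hp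
    obtain ⟨⟨px, _, rfl⟩, ⟨py, hpy, hp⟩⟩ := hp
    cases hp
    simp at hxy

lemma walkWt_nonneg (p : Sym2 V → ℝ) (h0 : ∀ e, 0 ≤ p e) (n : ℕ) (u v : V) :
    0 ≤ walkWt G p n u v := by
  unfold walkWt
  refine Finset.sum_nonneg fun w _ => ?_
  apply List.prod_nonneg
  intro a ha
  obtain ⟨e, _, rfl⟩ := List.mem_map.1 ha
  exact h0 e

lemma walkWt_le (p : Sym2 V → ℝ) (h0 : ∀ e, 0 ≤ p e) (δ R : ℝ)
    (hδ : ∀ u x, G.Adj u x → p s(u, x) ≤ δ) (hδ0 : 0 ≤ δ)
    (hR : ∀ u, ∑ x ∈ G.neighborFinset u, p s(u, x) ≤ R) (m : ℕ) (u v : V) :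
    walkWt G p (m + 1) u v ≤ δ * R ^ m := by
  have hR0 : ∀ u : V, 0 ≤ R := fun u =>
    (Finset.sum_nonneg fun x _ => h0 s(u, x)).trans (hR u)
  induction m generalizing u with
  | zero =>
    rw [walkWt_succ]
    simp only [walkWt_zero_le]
    simp only [mul_ite, mul_one, mul_zero, pow_zero]
    rw [Finset.sum_ite_eq' (G.neighborFinset u) v]
    split_ifs with h
    · exact hδ u v ((G.mem_neighborFinset u v).1 h)
    · exact hδ0
  | succ m ih =>
    rw [walkWt_succ]
    calc ∑ x ∈ G.neighborFinset u, p s(u, x) * walkWt G p (m + 1) x v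
        ≤ ∑ x ∈ G.neighborFinset u, p s(u, x) * (δ * R ^ m) := by
          refine Finset.sum_le_sum fun x _ => ?_
          exact mul_le_mul_of_nonneg_left (ih x) (h0 _)
      _ = (∑ x ∈ G.neighborFinset u, p s(u, x)) * (δ * R ^ m) := by
          rw [Finset.sum_mul]
      _ ≤ R * (δ * R ^ m) := by
          apply mul_le_mul_of_nonneg_right (hR u)
          have := hR0 u
          positivity
      _ = δ * R ^ (m + 1) := by ring

end Walks

section Graph

open Classical in
/-- the edges of `G` inside `S`. -/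
noncomputable def edgesIn {V : Type*} [Fintype V] (G : SimpleGraph V) (S : Finset V) :
    Finset (Sym2 V) :=
  G.edgeFinset.filter fun e => ∀ v ∈ e, v ∈ S

open Classical in
lemma mem_edgesIn {V : Type*} [Fintype V] (G : SimpleGraph V) (S : Finset V) (a b : V) :
    s(a, b) ∈ edgesIn G S ↔ G.Adj a b ∧ a ∈ S ∧ b ∈ S := by
  unfold edgesIn
  simp

open Classical in
/-- double sum over adjacent pairs inside `S` is twice the sum over edges (only `≤` needed). -/
lemma sum_pairs_le {V : Type*} [Fintype V] (G : SimpleGraph V) (S : Finset V) (p : Sym2 V → ℝ)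
    (h0 : ∀ e, 0 ≤ p e) :
    ∑ a ∈ S, ∑ b ∈ S, (if G.Adj a b then p s(a, b) else 0) ≤ 2 * ∑ e ∈ edgesIn G S, p e := by
  rw [← Finset.sum_product']
  rw [← Finset.sum_filter]
  have hmaps : ∀ x ∈ (S ×ˢ S).filter (fun x : V × V => G.Adj x.1 x.2),
      s(x.1, x.2) ∈ edgesIn G S := by
    intro x hx
    rw [Finset.mem_filter, Finset.mem_product] at hx
    rw [mem_edgesIn]
    exact ⟨hx.2, hx.1⟩
  rw [← Finset.sum_fiberwise_of_maps_to hmaps, Finset.mul_sum]
  refine Finset.sum_le_sum fun e he => ?_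
  set T : Finset (V × V) := ((S ×ˢ S).filter (fun x : V × V => G.Adj x.1 x.2)).filter
      (fun x => s(x.1, x.2) = e) with hT
  have hc : #T ≤ 2 := by
    rw [hT]
    clear hT
    clear T
    induction e using Sym2.ind with
    | _ a b =>
      have : ((S ×ˢ S).filter (fun x : V × V => G.Adj x.1 x.2)).filter
          (fun x => s(x.1, x.2) = s(a, b)) ⊆ {(a, b), (b, a)} := by
        intro x hx
        rw [Finset.mem_filter] at hx
        have := hx.2
        rw [Sym2.eq_iff] at this
        simp only [Finset.mem_insert, Finset.mem_singleton, Prod.ext_iff]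
        exact this
      exact (Finset.card_le_card this).trans (Finset.card_insert_le _ _)
  have h1 : ∑ x ∈ T, p s(x.1, x.2) = ∑ x ∈ T, p e := by
    refine Finset.sum_congr rfl fun x hx => ?_
    rw [(Finset.mem_filter.1 hx).2]
  rw [h1, Finset.sum_const, nsmul_eq_mul]
  apply mul_le_mul_of_nonneg_right _ (h0 e)
  exact_mod_cast hc

end Graph

end Pool.Agent.H86.EH
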