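import Mathlib
import Pool.Agent.H86.EH.Walks

set_option autoImplicit false

namespace Pool.Agent.H86.EH

open Finset SimpleGraph

open Classical in
/-- Main sampling theorem for graphs. -/
theorem exists_subgraph {V : Type*} [Fintype V] (G : SimpleGraph V) (U : Finset V)
    (hU : ∀ a b, G.Adj a b → a ∈ U) (hne : U.Nonempty) (p : Sym2 V → ℝ) (h0 : ∀ e, 0 ≤ p e)
    (δ R : ℝ) (g : ℕ) (hδ0 : 0 ≤ δ) (hδ1 : δ ≤ 1) (hδ : ∀ u x, G.Adj u x → p s(u, x) ≤ δ)
    (hR1 : 1 ≤ R) (hR : ∀ u, ∑ x, (if G.Adj u x then p s(u, x) else 0) ≤ R)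
    (hg : δ * g * R ^ (g - 2) ≤ 1 / 2) (𝒮 : Finset (Finset V))
    (h𝒮 : ∀ S ∈ 𝒮, S ⊆ U ∧ 6 * (#U : ℝ) ≤ ∑ e ∈ edgesIn G S, p e) :
    ∃ H ≤ G, (g : ℕ∞) ≤ H.egirth ∧ ∀ S ∈ 𝒮, ∃ a ∈ S, ∃ b ∈ S, H.Adj a b := by
  let E : Finset (Sym2 V) := G.edgeFinset
  let W : ∀ v : V, Finset (G.Walk v v) := fun v =>
    (Finset.Ico 3 g).biUnion fun l => (G.finsetWalkLength l v v).filter fun w => w.IsCycle
  let C : Finset (Σ v : V, G.Walk v v) := U.sigma W
  let c : (Σ v : V, G.Walk v v) → Finset (Sym2 V) := fun i => i.2.edges.toFinset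
  have hR' : ∀ u, ∑ x ∈ G.neighborFinset u, p s(u, x) ≤ R := by
    intro u
    refine le_trans (le_of_eq ?_) (hR u)
    rw [← Finset.sum_filter]
    congr 1
    ext x
    simp
  have hmemW : ∀ v (w : G.Walk v v), w ∈ W v ↔ (3 ≤ w.length ∧ w.length < g) ∧ w.IsCycle := by
    intro v w
    simp only [W, Finset.mem_biUnion, Finset.mem_filter, mem_finsetWalkLength_iff, Finset.mem_Ico]
    constructor
    · rintro ⟨l, hl, hw, hc⟩
      subst hw
      exact ⟨hl, hc⟩
    · rintro ⟨hl, hc⟩
      exact ⟨w.length, hl, rfl, hc⟩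
  have hpE : ∀ a ∈ E, p a ≤ δ := by
    intro a ha
    induction a using Sym2.ind with
    | _ x y =>
      have : G.Adj x y := by simpa [E] using ha
      exact hδ x y this
  -- the cycle sum
  have hcyc : ∑ i ∈ C, ∏ a ∈ c i, p a ≤ #U * (δ * g * R ^ (g - 2)) := by
    rw [Finset.sum_sigma]
    have hv : ∀ v ∈ U, ∑ w ∈ W v, ∏ a ∈ c ⟨v, w⟩, p a ≤ δ * g * R ^ (g - 2) := by
      intro v _
      have h1 : ∑ w ∈ W v, ∏ a ∈ c ⟨v, w⟩, p a ≤
          ∑ l ∈ Finset.Ico 3 g, walkWt G p l v v := by
        have hd : (↑(Finset.Ico 3 g) : Set ℕ).PairwiseDisjoint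
            (fun l => (G.finsetWalkLength l v v).filter fun w => w.IsCycle) := by
          intro a _ b _ hab
          rw [Function.onFun, Finset.disjoint_left]
          intro w hwa hwb
          rw [Finset.mem_filter, mem_finsetWalkLength_iff] at hwa hwb
          exact hab (hwa.1.symm.trans hwb.1)
        simp only [W]
        rw [Finset.sum_biUnion hd]
        refine Finset.sum_le_sum fun l _ => ?_
        unfold walkWt
        have h2 : ∀ w ∈ (G.finsetWalkLength l v v).filter (fun w => w.IsCycle),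
            ∏ a ∈ c ⟨v, w⟩, p a = (w.edges.map p).prod := by
          intro w hw
          rw [Finset.mem_filter] at hw
          have hnd : w.edges.Nodup := hw.2.isCircuit.isTrail.edges_nodup
          simp only [c]
          exact (List.prod_toFinset p hnd)
        rw [Finset.sum_congr rfl h2]
        refine Finset.sum_le_sum_of_subset_of_nonneg (Finset.filter_subset _ _) ?_
        intro w _ _
        apply List.prod_nonneg
        intro a ha
        obtain ⟨e, _, rfl⟩ := List.mem_map.1 ha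
        exact h0 e
      refine h1.trans ?_
      have h3 : ∀ l ∈ Finset.Ico 3 g, walkWt G p l v v ≤ δ * R ^ (g - 2) := by
        intro l hl
        rw [Finset.mem_Ico] at hl
        obtain ⟨m, rfl⟩ : ∃ m, l = m + 1 := ⟨l - 1, by omega⟩
        refine (walkWt_le G p h0 δ R hδ hδ0 hR' m v v).trans ?_
        apply mul_le_mul_of_nonneg_left _ hδ0
        exact pow_le_pow_right₀ hR1 (by omega)
      refine (Finset.sum_le_card_nsmul _ _ _ h3).trans ?_
      rw [nsmul_eq_mul, Nat.card_Ico]
      have h4 : ((g - 3 : ℕ) : ℝ) ≤ g := by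
        exact_mod_cast Nat.sub_le g 3
      have h5 : 0 ≤ δ * R ^ (g - 2) := by positivity
      nlinarith
    refine (Finset.sum_le_card_nsmul _ _ _ hv).trans ?_
    rw [nsmul_eq_mul]
  have hU1 : (1 : ℝ) ≤ #U := by
    exact_mod_cast hne.card_pos
  have h1 : (∑ i ∈ C, ∏ a ∈ c i, p a) / ((#U : ℕ) + 1 : ℝ) < 1 / 2 := by
    rw [div_lt_iff₀ (by positivity)]
    nlinarith
  have h2 : 2 ^ (#U) * ∑ S ∈ 𝒮, ∏ a ∈ edgesIn G S, (1 - p a / 2) < 1 / 2 := by
    have h3 : ∀ S ∈ 𝒮, ∏ a ∈ edgesIn G S, (1 - p a / 2) ≤ Real.exp (-3 * #U) := by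
      intro S hS
      calc ∏ a ∈ edgesIn G S, (1 - p a / 2) ≤ ∏ a ∈ edgesIn G S, Real.exp (-(p a / 2)) := by
            apply Finset.prod_le_prod
            · intro a ha
              have : p a ≤ δ := hpE a (Finset.mem_filter.1 ha).1
              linarith
            · intro a _
              have := Real.add_one_le_exp (-(p a / 2))
              linarith
        _ = Real.exp (∑ a ∈ edgesIn G S, -(p a / 2)) := by rw [Real.exp_sum]
        _ ≤ Real.exp (-3 * #U) := by
            apply Real.exp_le_exp.2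
            rw [Finset.sum_neg_distrib, ← Finset.sum_div]
            have := (h𝒮 S hS).2
            linarith
    have h4 : (#𝒮 : ℝ) ≤ 2 ^ (#U) := by
      have : 𝒮 ⊆ U.powerset := fun S hS => Finset.mem_powerset.2 (h𝒮 S hS).1
      have := Finset.card_le_card this
      rw [Finset.card_powerset] at this
      exact_mod_cast this
    have h5 : ∑ S ∈ 𝒮, ∏ a ∈ edgesIn G S, (1 - p a / 2) ≤ 2 ^ (#U) * Real.exp (-3 * #U) := by
      refine (Finset.sum_le_card_nsmul _ _ _ h3).trans ?_
      rw [nsmul_eq_mul]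
      exact mul_le_mul_of_nonneg_right h4 (Real.exp_pos _).le
    have h6 : Real.exp (-3 * #U) = (Real.exp (-3)) ^ (#U) := by
      rw [← Real.exp_nat_mul]
      congr 1
      ring
    have h7 : Real.exp (-3) < 1 / 8 := by
      rw [Real.exp_neg, ← one_div]
      apply one_div_lt_one_div_of_lt (by norm_num)
      have h8 : (2.7 : ℝ) < Real.exp 1 := by
        have := Real.exp_one_gt_d9
        linarith
      have h9 : Real.exp 3 = Real.exp 1 ^ 3 := by
        rw [← Real.exp_nat_mul]
        norm_num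
      rw [h9]
      nlinarith [sq_nonneg (Real.exp 1 - 2.7)]
    calc (2 : ℝ) ^ (#U) * ∑ S ∈ 𝒮, ∏ a ∈ edgesIn G S, (1 - p a / 2)
        ≤ 2 ^ (#U) * (2 ^ (#U) * Real.exp (-3 * #U)) := by
          exact mul_le_mul_of_nonneg_left h5 (by positivity)
      _ = (4 * Real.exp (-3)) ^ (#U) := by
          rw [h6, mul_pow, ← mul_assoc, ← mul_pow]
          norm_num
      _ ≤ (4 * Real.exp (-3)) ^ 1 := by
          apply pow_le_pow_of_le_one
          · positivity
          · linarith
          · exact hne.card_pos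
      _ < 1 / 2 := by linarith
  obtain ⟨F, hFE, hFC, hFS⟩ := exists_sample E p (fun a _ => h0 a)
    (fun a ha => (hpE a ha).trans hδ1) C c
    (by
      rintro ⟨v, w⟩ _ a ha
      simp only [c, List.mem_toFinset] at ha
      simpa [E] using w.edges_subset_edgeSet ha)
    (by
      rintro ⟨v, w⟩ hw
      simp only [C, Finset.mem_sigma] at hw
      have := (hmemW v w).1 hw.2
      simp only [c]
      rw [← Finset.card_pos, List.toFinset_card_of_nodup this.2.isCircuit.isTrail.edges_nodup,
        Walk.length_edges]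
      omega)
    𝒮 (fun S => edgesIn G S) (fun S _ => Finset.filter_subset _ _) (#U)
    (by linarith)
  have hHG : SimpleGraph.fromEdgeSet (F : Set (Sym2 V)) ≤ G := by
    intro a b hab
    rw [fromEdgeSet_adj] at hab
    have := hFE (Finset.mem_coe.1 hab.1)
    simpa [E] using this
  refine ⟨SimpleGraph.fromEdgeSet (F : Set (Sym2 V)), hHG, ?_, ?_⟩
  · rw [le_egirth]
    intro a w hw
    by_contra hlt
    push Not at hlt
    have hlt' : w.length < g := by exact_mod_cast hlt
    have hcyc' : (w.mapLe hHG).IsCycle := hw.mapLe hHG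
    have hlen : (w.mapLe hHG).length = w.length := w.length_mapLe hHG
    have haU : a ∈ U := by
      have hnn : ¬ (w.mapLe hHG).Nil := hcyc'.not_nil
      exact hU a _ (Walk.adj_snd hnn)
    have hmem : (⟨a, w.mapLe hHG⟩ : Σ v : V, G.Walk v v) ∈ C := by
      simp only [C, Finset.mem_sigma]
      refine ⟨haU, (hmemW a _).2 ⟨⟨hcyc'.three_le_length, ?_⟩, hcyc'⟩⟩
      omega
    apply hFC _ hmem
    intro e he
    simp only [c, List.mem_toFinset] at he
    rw [Walk.edges_mapLe_eq_edges] at he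
    have := w.edges_subset_edgeSet he
    rw [edgeSet_fromEdgeSet] at this
    exact Finset.mem_coe.1 this.1
  · intro S hS
    obtain ⟨e, he⟩ := hFS S hS
    rw [Finset.mem_inter] at he
    induction e using Sym2.ind with
    | _ a b =>
      have h := (mem_edgesIn G S a b).1 he.2
      exact ⟨a, h.2.1, b, h.2.2, by
        rw [fromEdgeSet_adj]
        exact ⟨Finset.mem_coe.2 he.1, h.1.ne⟩⟩

end Pool.Agent.H86.EH
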