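import Mathlib
import Pool.Agent.H86.EH.Core

set_option autoImplicit false

namespace Pool.Agent.H86.EH

open Finset SimpleGraph

/-- Every subgraph of girth at least `g` has Hall ratio at most `k`. -/
def HallBad (k g : ℕ) {V : Type*} (G : SimpleGraph V) : Prop :=
  ∀ H ≤ G, (g : ℕ∞) ≤ H.egirth → ∀ U : Finset V, U.Nonempty →
    ∃ S ⊆ U, #U ≤ k * #S ∧ ∀ a ∈ S, ∀ b ∈ S, ¬ H.Adj a b

/-- restriction of `G` to `U`. -/
def restr {V : Type*} (G : SimpleGraph V) (U : Finset V) : SimpleGraph V where
  Adj a b := G.Adj a b ∧ a ∈ U ∧ b ∈ U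
  symm := ⟨fun _ _ h => ⟨h.1.symm, h.2.2, h.2.1⟩⟩
  loopless := ⟨fun _ h => h.1.ne rfl⟩

lemma restr_le {V : Type*} (G : SimpleGraph V) (U : Finset V) : restr G U ≤ G :=
  fun _ _ h => h.1

open Classical in
lemma markov {V : Type*} (S : Finset V) (f : V → ℝ) (h0 : ∀ u ∈ S, 0 ≤ f u) (x : ℝ)
    (hx : 0 < x) (h : ∑ u ∈ S, f u ≤ x * #S) :
    (#S : ℝ) ≤ 2 * #(S.filter fun u => f u ≤ 2 * x) := by
  have h1 : 2 * x * #(S.filter fun u => ¬ f u ≤ 2 * x) ≤ ∑ u ∈ S, f u := by
    calc 2 * x * #(S.filter fun u => ¬ f u ≤ 2 * x)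
        = ∑ u ∈ S.filter (fun u => ¬ f u ≤ 2 * x), 2 * x := by
          rw [Finset.sum_const, nsmul_eq_mul]; ring
      _ ≤ ∑ u ∈ S.filter (fun u => ¬ f u ≤ 2 * x), f u := by
          refine Finset.sum_le_sum fun u hu => ?_
          have := (Finset.mem_filter.1 hu).2
          linarith
      _ ≤ ∑ u ∈ S, f u := by
          refine Finset.sum_le_sum_of_subset_of_nonneg (Finset.filter_subset _ _) ?_
          intro u hu _
          exact h0 u hu
  have h2 : (#S : ℝ) = #(S.filter fun u => f u ≤ 2 * x) + #(S.filter fun u => ¬ f u ≤ 2 * x) := by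
    exact_mod_cast (Finset.card_filter_add_card_filter_not (s := S) (fun u => f u ≤ 2 * x)).symm
  have h3 : 2 * x * #(S.filter fun u => ¬ f u ≤ 2 * x) ≤ x * #S := h1.trans h
  have h4 : 2 * (#(S.filter fun u => ¬ f u ≤ 2 * x) : ℝ) ≤ #S := by
    have h5 : x * (2 * (#(S.filter fun u => ¬ f u ≤ 2 * x) : ℝ)) ≤ x * #S := by linarith
    exact le_of_mul_le_mul_left h5 hx
  linarith

open Classical in
/-- One step of the iteration. -/
lemma shrink {V : Type*} [Fintype V] (G : SimpleGraph V) (k g : ℕ) (hk : 1 ≤ k) (hg : 1 ≤ g)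
    (hG : HallBad k g G) (D : ℝ) (hD : 1 ≤ D) (U : Finset V) (hne : U.Nonempty)
    (hdeg : ∀ u ∈ U, (#(U.filter fun x => G.Adj u x) : ℝ) ≤ D ^ g) :
    ∃ T ⊆ U, T.Nonempty ∧ (#U : ℝ) ≤ 2 * k * #T ∧
      ∀ u ∈ T, (#(T.filter fun x => G.Adj u x) : ℝ) ≤ 48 * g * k * D ^ (g - 1) := by
  have hg0 : (1 : ℝ) ≤ g := by exact_mod_cast hg
  have hk0 : (1 : ℝ) ≤ k := by exact_mod_cast hk
  have hDp : (1 : ℝ) ≤ D ^ (g - 1) := one_le_pow₀ hD
  set q : ℝ := 1 / (2 * g * D ^ (g - 1)) with hq
  have hq0 : 0 < q := by positivity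
  have hq1 : q ≤ 1 := by
    rw [hq, div_le_one (by positivity)]
    nlinarith
  let G' := restr G U
  let 𝒮 : Finset (Finset V) := U.powerset.filter fun S => #U ≤ k * #S
  obtain ⟨S, hS, hSlt⟩ : ∃ S ∈ 𝒮, ∑ e ∈ edgesIn G' S, q < 6 * #U := by
    by_contra hcon
    push Not at hcon
    obtain ⟨H, hHG, hHg, hHS⟩ := exists_subgraph G' U (fun a b h => h.2.1) hne (fun _ => q)
      (fun _ => hq0.le) q D g hq0.le hq1 (fun _ _ _ => le_rfl) hD
      (by
        intro u
        rw [← Finset.sum_filter, Finset.sum_const, nsmul_eq_mul]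
        by_cases hu : u ∈ U
        · have h1 : (Finset.univ.filter fun x => G'.Adj u x) = U.filter fun x => G.Adj u x := by
            ext x
            simp only [Finset.mem_filter, Finset.mem_univ, true_and]
            constructor
            · intro h
              exact ⟨h.2.2, h.1⟩
            · intro h
              exact ⟨h.2, hu, h.1⟩
          rw [h1]
          calc (#(U.filter fun x => G.Adj u x) : ℝ) * q ≤ D ^ g * q :=
                mul_le_mul_of_nonneg_right (hdeg u hu) hq0.le
            _ = D * (D ^ (g - 1) * q) := by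
                obtain ⟨m, rfl⟩ : ∃ m, g = m + 1 := ⟨g - 1, by omega⟩
                simp only [Nat.add_sub_cancel]
                ring
            _ ≤ D * 1 := by
                apply mul_le_mul_of_nonneg_left _ (by linarith)
                rw [hq, mul_one_div, div_le_one (by positivity)]
                nlinarith
            _ = D := mul_one D
        · have h1 : (Finset.univ.filter fun x => G'.Adj u x) = ∅ := by
            ext x
            simp only [Finset.mem_filter, Finset.mem_univ, true_and, Finset.notMem_empty,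
              iff_false]
            intro h
            exact hu h.2.1
          rw [h1]
          simp
          linarith)
      (by
        rw [hq]
        have h2 : D ^ (g - 2) ≤ D ^ (g - 1) := pow_le_pow_right₀ hD (by omega)
        rw [div_mul_eq_mul_div, div_mul_eq_mul_div, div_le_div_iff₀ (by positivity) (by norm_num)]
        nlinarith)
      𝒮
      (by
        intro S hS
        refine ⟨Finset.mem_powerset.1 (Finset.mem_filter.1 hS).1, hcon S hS⟩)
    obtain ⟨S, hSU, hSc, hSi⟩ := hG H (hHG.trans (restr_le G U)) hHg U hne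
    obtain ⟨a, ha, b, hb, hab⟩ := hHS S (Finset.mem_filter.2 ⟨Finset.mem_powerset.2 hSU, hSc⟩)
    exact hSi a ha b hb hab
  obtain ⟨hSU, hSc⟩ := Finset.mem_filter.1 hS
  rw [Finset.mem_powerset] at hSU
  have hSc' : (#U : ℝ) ≤ k * #S := by exact_mod_cast hSc
  have hsum : ∑ u ∈ S, (#(S.filter fun x => G.Adj u x) : ℝ) ≤ 24 * g * k * D ^ (g - 1) * #S := by
    have h1 := sum_pairs_le G' S (fun _ => (1 : ℝ)) (fun _ => zero_le_one)
    have h2 : ∀ u ∈ S, (#(S.filter fun x => G.Adj u x) : ℝ) =
        ∑ b ∈ S, (if G'.Adj u b then (1 : ℝ) else 0) := by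
      intro u hu
      rw [Finset.card_filter]
      push_cast
      refine Finset.sum_congr rfl fun b hb => ?_
      have : G'.Adj u b ↔ G.Adj u b := ⟨fun h => h.1, fun h => ⟨h, hSU hu, hSU hb⟩⟩
      simp only [this]
    rw [Finset.sum_congr rfl h2]
    refine h1.trans ?_
    rw [Finset.sum_const, nsmul_eq_mul] at hSlt
    rw [Finset.sum_const, nsmul_eq_mul, mul_one]
    have h3 : (#(edgesIn G' S) : ℝ) < 6 * #U / q := by
      rw [lt_div_iff₀ hq0]
      exact hSlt
    have h4 : 6 * (#U : ℝ) / q = 12 * g * D ^ (g - 1) * #U := by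
      rw [hq]
      field_simp
      ring
    rw [h4] at h3
    have h5 : 12 * g * D ^ (g - 1) * #U ≤ 12 * g * D ^ (g - 1) * (k * #S) :=
      mul_le_mul_of_nonneg_left hSc' (by positivity)
    linarith
  have hm := markov S (fun u => (#(S.filter fun x => G.Adj u x) : ℝ)) (fun _ _ => by positivity)
    (24 * g * k * D ^ (g - 1)) (by positivity) hsum
  refine ⟨S.filter fun u => (#(S.filter fun x => G.Adj u x) : ℝ) ≤ 2 * (24 * g * k * D ^ (g - 1)),
    (Finset.filter_subset _ _).trans hSU, ?_, ?_, ?_⟩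
  · rw [← Finset.card_pos]
    have h1 : (0 : ℝ) < #U := by exact_mod_cast hne.card_pos
    have h2 : (0 : ℝ) < #S := by
      by_contra h
      push Not at h
      nlinarith
    have h3 : (0 : ℝ) < #(S.filter fun u =>
      (#(S.filter fun x => G.Adj u x) : ℝ) ≤ 2 * (24 * g * k * D ^ (g - 1))) := by linarith
    exact_mod_cast h3
  · calc (#U : ℝ) ≤ k * #S := hSc'
      _ ≤ k * (2 * #(S.filter fun u =>
      (#(S.filter fun x => G.Adj u x) : ℝ) ≤ 2 * (24 * g * k * D ^ (g - 1)))) :=
          mul_le_mul_of_nonneg_left hm (by linarith)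
      _ = _ := by ring
  · intro u hu
    rw [Finset.mem_filter] at hu
    calc (#((S.filter fun u =>
      (#(S.filter fun x => G.Adj u x) : ℝ) ≤ 2 * (24 * g * k * D ^ (g - 1))).filter
        fun x => G.Adj u x) : ℝ) ≤ #(S.filter fun x => G.Adj u x) := by
          have : ((S.filter fun u =>
      (#(S.filter fun x => G.Adj u x) : ℝ) ≤ 2 * (24 * g * k * D ^ (g - 1))).filter
        fun x => G.Adj u x) ⊆ S.filter fun x => G.Adj u x :=
            Finset.filter_subset_filter _ (Finset.filter_subset _ _)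
          exact_mod_cast Finset.card_le_card this
      _ ≤ 2 * (24 * g * k * D ^ (g - 1)) := hu.2
      _ = _ := by ring

open Classical in
/-- Greedy independent sets. -/
lemma greedy {V : Type*} (G : SimpleGraph V) (d : ℝ) (U : Finset V) (hd0 : 0 ≤ d)
    (hd : ∀ u ∈ U, (#(U.filter fun x => G.Adj u x) : ℝ) ≤ d) :
    ∃ I ⊆ U, (∀ a ∈ I, ∀ b ∈ I, ¬ G.Adj a b) ∧ (#U : ℝ) ≤ (d + 1) * #I := by
  induction U using Finset.strongInduction with
  | H U ih =>
    rcases U.eq_empty_or_nonempty with rfl | ⟨u, hu⟩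
    · exact ⟨∅, Finset.Subset.refl _, by simp, by simp⟩
    · set U' := U.filter fun x => x ≠ u ∧ ¬ G.Adj u x with hU'
      have hss : U' ⊂ U := by
        rw [Finset.ssubset_iff_of_subset (Finset.filter_subset _ _)]
        exact ⟨u, hu, by simp⟩
      obtain ⟨I, hI, hIi, hIc⟩ := ih U' hss (by
        intro v hv
        refine le_trans ?_ (hd v (hss.1 hv))
        exact_mod_cast Finset.card_le_card (Finset.filter_subset_filter _ hss.1))
      have huI : u ∉ I := fun h => by
        have := (Finset.mem_filter.1 (hI h)).2.1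
        exact this rfl
      refine ⟨insert u I, ?_, ?_, ?_⟩
      · intro x hx
        rcases Finset.mem_insert.1 hx with rfl | hx
        · exact hu
        · exact hss.1 (hI hx)
      · intro a ha b hb
        rcases Finset.mem_insert.1 ha with ha1 | ha1 <;>
          rcases Finset.mem_insert.1 hb with hb1 | hb1
        · exact fun h => h.ne (ha1.trans hb1.symm)
        · rw [ha1]
          exact (Finset.mem_filter.1 (hI hb1)).2.2
        · rw [hb1]
          exact fun h => (Finset.mem_filter.1 (hI ha1)).2.2 h.symm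
        · exact hIi a ha1 b hb1
      · rw [Finset.card_insert_of_notMem huI]
        have h1 : U ⊆ U' ∪ ({u} ∪ U.filter fun x => G.Adj u x) := by
          intro x hx
          by_cases hxu : x = u
          · simp [hxu]
          · by_cases hxa : G.Adj u x
            · simp [hx, hxa]
            · simp [hU', hx, hxa, hxu]
        have h2 : #U ≤ #U' + (1 + #(U.filter fun x => G.Adj u x)) := by
          refine (Finset.card_le_card h1).trans ((Finset.card_union_le _ _).trans ?_)
          have := Finset.card_union_le {u} (U.filter fun x => G.Adj u x)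
          rw [Finset.card_singleton] at this
          omega
        have h3 : (#U : ℝ) ≤ #U' + (1 + #(U.filter fun x => G.Adj u x)) := by exact_mod_cast h2
        have h4 := hd u hu
        push_cast
        linarith

open Classical in
/-- The iteration. -/
lemma hall_iter {V : Type*} [Fintype V] (G : SimpleGraph V) (k g : ℕ) (hk : 1 ≤ k) (hg : 1 ≤ g)
    (hG : HallBad k g G) (j : ℕ) : ∀ (y : ℝ), 0 ≤ y → (1 - 1 / (g : ℝ)) ^ j * y ≤ 1 →
    ∀ (U : Finset V), U.Nonempty →
    (∀ u ∈ U, (#(U.filter fun x => G.Adj u x) : ℝ) ≤ (48 * g * k * Real.exp y) ^ g) →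
    ∃ I ⊆ U, (∀ a ∈ I, ∀ b ∈ I, ¬ G.Adj a b) ∧
      (#U : ℝ) ≤ ((48 * g * k * Real.exp 1) ^ g + 1) * (2 * k) ^ j * #I := by
  have hg0 : (1 : ℝ) ≤ g := by exact_mod_cast hg
  have hk0 : (1 : ℝ) ≤ k := by exact_mod_cast hk
  have hA : (1 : ℝ) ≤ 48 * g * k := by nlinarith
  induction j with
  | zero =>
    intro y _ hy U _ hdeg
    rw [pow_zero, one_mul] at hy
    obtain ⟨I, hI, hIi, hIc⟩ := greedy G ((48 * g * k * Real.exp 1) ^ g) U (by positivity) (by
      intro u hu
      refine (hdeg u hu).trans ?_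
      apply pow_le_pow_left₀ (by positivity)
      apply mul_le_mul_of_nonneg_left _ (by positivity)
      exact Real.exp_le_exp.2 hy)
    exact ⟨I, hI, hIi, by simpa using hIc⟩
  | succ j ih =>
    intro y hy0 hy U hne hdeg
    have hD : 1 ≤ 48 * g * k * Real.exp y := by
      have := Real.one_le_exp hy0
      nlinarith
    obtain ⟨T, hTU, hTne, hTc, hTd⟩ := shrink G k g hk hg hG (48 * g * k * Real.exp y) hD U hne hdeg
    have h1g : 0 ≤ 1 - 1 / (g : ℝ) := by
      rw [sub_nonneg, div_le_one (by linarith)]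
      exact hg0
    obtain ⟨I, hI, hIi, hIc⟩ := ih ((1 - 1 / (g : ℝ)) * y) (mul_nonneg h1g hy0)
      (by rw [← mul_assoc, ← pow_succ]; exact hy) T hTne (by
        intro u hu
        refine (hTd u hu).trans (le_of_eq ?_)
        obtain ⟨m, rfl⟩ : ∃ m, g = m + 1 := ⟨g - 1, by omega⟩
        simp only [Nat.add_sub_cancel]
        have h2 : Real.exp ((1 - 1 / ((m + 1 : ℕ) : ℝ)) * y) ^ (m + 1) = Real.exp y ^ m := by
          rw [← Real.exp_nat_mul, ← Real.exp_nat_mul]
          congr 1
          push_cast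
          field_simp
          ring
        rw [mul_pow (48 * ((m + 1 : ℕ) : ℝ) * k) (Real.exp _) (m + 1), h2, mul_pow]
        ring)
    refine ⟨I, hI.trans hTU, hIi, ?_⟩
    calc (#U : ℝ) ≤ 2 * k * #T := hTc
      _ ≤ 2 * k * (((48 * g * k * Real.exp 1) ^ g + 1) * (2 * k) ^ j * #I) :=
          mul_le_mul_of_nonneg_left hIc (by positivity)
      _ = _ := by ring

end Pool.Agent.H86.EH
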