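import Mathlib

set_option autoImplicit false

namespace Pool.Agent.H86.EH

/-- `G` has a fractional colouring of total weight at most `q` (fractional chromatic number at
most `q`): nonnegative weights on independent vertex sets, of total at most `q`, such that every
vertex lies in independent sets of total weight at least one. -/
def FracColorable {V : Type} [Fintype V] [DecidableEq V] (G : SimpleGraph V) (q : ℝ) : Prop :=
  ∃ w : Finset V → ℝ, (∀ S, 0 ≤ w S) ∧ (∀ S, w S ≠ 0 → G.IsIndepSet (S : Set V)) ∧
    (∀ v, 1 ≤ ∑ S ∈ Finset.univ.filter (fun S : Finset V => v ∈ S), w S) ∧ ∑ S, w S ≤ q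

end Pool.Agent.H86.EH
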