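import Mathlib
import Pool.Agent.H86.EH.Bad

set_option autoImplicit false

namespace Pool.Agent.H86.EH

open Finset SimpleGraph

lemma one_sub_inv_pow_le (g : ℕ) (hg : 1 ≤ g) (m : ℕ) :
    (1 - 1 / (g : ℝ)) ^ (g * m) ≤ (1 / 2) ^ m := by
  have hg0 : (1 : ℝ) ≤ g := by exact_mod_cast hg
  have h1g : 0 ≤ 1 - 1 / (g : ℝ) := by
    rw [sub_nonneg, div_le_one (by linarith)]
    exact hg0
  rw [pow_mul]
  apply pow_le_pow_left₀ (by positivity)
  calc (1 - 1 / (g : ℝ)) ^ g ≤ (Real.exp (-(1 / g))) ^ g := by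
        apply pow_le_pow_left₀ h1g
        have := Real.add_one_le_exp (-(1 / (g : ℝ)))
        linarith
    _ = Real.exp (-1) := by
        rw [← Real.exp_nat_mul]
        congr 1
        field_simp
    _ ≤ 1 / 2 := by
        rw [Real.exp_neg, ← one_div]
        apply one_div_le_one_div_of_le (by norm_num)
        have := Real.add_one_le_exp (1 : ℝ)
        linarith

open Classical in
/-- polylogarithmic bound for the Hall ratio of a bad graph. -/
theorem hall_polylog (k g : ℕ) (hk : 1 ≤ k) (hg : 1 ≤ g) :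
    ∃ C : ℕ, 1 ≤ C ∧ ∀ (V : Type) [Fintype V] (G : SimpleGraph V), HallBad k g G →
      ∀ U : Finset V, U.Nonempty → ∀ d : ℕ, (∀ u ∈ U, #(U.filter fun x => G.Adj u x) ≤ d) →
      ∃ I ⊆ U, (∀ a ∈ I, ∀ b ∈ I, ¬ G.Adj a b) ∧ #U ≤ C * Nat.log 2 (d + 2) ^ C * #I := by
  obtain ⟨A, hA⟩ := exists_nat_ge ((48 * g * k * Real.exp 1) ^ g + 1)
  set B : ℕ := (2 * k) ^ g with hB
  refine ⟨A * 4 ^ B + B + 1, by omega, ?_⟩
  intro V _ G hG U hne d hd
  set L := Nat.log 2 (d + 2) with hL
  have hL1 : 1 ≤ L := by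
    rw [hL]
    exact Nat.log_pos (by norm_num) (by omega)
  have hdL : d + 2 < 2 ^ (L + 1) := by
    rw [hL]
    exact Nat.lt_pow_succ_log_self (by norm_num) _
  have hg0 : (1 : ℝ) ≤ g := by exact_mod_cast hg
  have hk0 : (1 : ℝ) ≤ k := by exact_mod_cast hk
  have hA1 : (1 : ℝ) ≤ 48 * g * k := by nlinarith
  set m := Nat.log 2 L + 2 with hm
  have hmL : L < 2 ^ (Nat.log 2 L + 1) := Nat.lt_pow_succ_log_self (by norm_num) _
  have hLm : 2 ^ Nat.log 2 L ≤ L := Nat.pow_log_le_self 2 (by omega)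
  obtain ⟨I, hI, hIi, hIc⟩ := hall_iter G k g hk hg hG (g * m) (2 * L) (by positivity) (by
    have h1 := one_sub_inv_pow_le g hg m
    have h2 : (2 * L : ℝ) ≤ 2 ^ m := by
      have : 2 * L ≤ 2 ^ m := by
        rw [hm, pow_succ]
        omega
      exact_mod_cast this
    calc (1 - 1 / (g : ℝ)) ^ (g * m) * (2 * L) ≤ (1 / 2) ^ m * (2 * L) :=
          mul_le_mul_of_nonneg_right h1 (by positivity)
      _ ≤ (1 / 2) ^ m * 2 ^ m := mul_le_mul_of_nonneg_left h2 (by positivity)
      _ = 1 := by rw [← mul_pow]; norm_num) U hne (by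
    intro u hu
    calc (#(U.filter fun x => G.Adj u x) : ℝ) ≤ d := by exact_mod_cast hd u hu
      _ ≤ 2 ^ (L + 1) := by
          have : d ≤ 2 ^ (L + 1) := by omega
          exact_mod_cast this
      _ ≤ Real.exp 1 ^ (L + 1) := by
          apply pow_le_pow_left₀ (by norm_num)
          have := Real.add_one_le_exp (1 : ℝ)
          linarith
      _ ≤ Real.exp (2 * L) := by
          rw [← Real.exp_nat_mul]
          apply Real.exp_le_exp.2
          push_cast
          have : (1 : ℝ) ≤ L := by exact_mod_cast hL1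
          linarith
      _ ≤ 48 * g * k * Real.exp (2 * L) := by
          have := Real.exp_pos (2 * (L : ℝ))
          nlinarith
      _ ≤ (48 * g * k * Real.exp (2 * L)) ^ g := by
          apply le_self_pow₀ _ (by omega)
          have := Real.one_le_exp (x := 2 * (L : ℝ)) (by positivity)
          nlinarith)
  refine ⟨I, hI, hIi, ?_⟩
  have h2k : ((2 * k : ℕ) : ℝ) ^ (g * m) ≤ ((4 * L) ^ B : ℕ) := by
    have h1 : (2 * k) ^ (g * m) ≤ (4 * L) ^ B := by
      calc (2 * k) ^ (g * m) = B ^ m := by rw [pow_mul]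
        _ ≤ (2 ^ B) ^ m := Nat.pow_le_pow_left (Nat.lt_two_pow_self).le m
        _ = (2 ^ m) ^ B := by rw [← pow_mul, ← pow_mul, mul_comm]
        _ ≤ (4 * L) ^ B := by
            apply Nat.pow_le_pow_left
            rw [hm, pow_add]
            omega
    exact_mod_cast h1
  have hfin : (#U : ℝ) ≤ ((A * (4 * L) ^ B * #I : ℕ) : ℝ) := by
    push_cast
    refine hIc.trans ?_
    apply mul_le_mul_of_nonneg_right _ (by positivity)
    push_cast at h2k
    exact mul_le_mul hA h2k (by positivity) (by positivity)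
  have hfin' : #U ≤ A * (4 * L) ^ B * #I := by exact_mod_cast hfin
  refine hfin'.trans ?_
  apply Nat.mul_le_mul_right
  calc A * (4 * L) ^ B = (A * 4 ^ B) * L ^ B := by rw [mul_pow]; ring
    _ ≤ (A * 4 ^ B + B + 1) * L ^ (A * 4 ^ B + B + 1) := by
        apply Nat.mul_le_mul
        · omega
        · exact Nat.pow_le_pow_right hL1 (by omega)

open Classical in
/-- exhaustion by independent sets gives colourings. -/
lemma color_of_hall {V : Type*} (G : SimpleGraph V) (ρ : ℕ) (hρ : 1 ≤ ρ)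
    (h : ∀ U : Finset V, U.Nonempty → ∃ I ⊆ U, (∀ a ∈ I, ∀ b ∈ I, ¬ G.Adj a b) ∧ #U ≤ ρ * #I)
    (j : ℕ) : ∀ U : Finset V, (#U : ℝ) * (1 - 1 / (ρ : ℝ)) ^ j < 1 →
      ∃ c : V → ℕ, (∀ a ∈ U, c a < j) ∧ ∀ a ∈ U, ∀ b ∈ U, G.Adj a b → c a ≠ c b := by
  have hρ0 : (1 : ℝ) ≤ ρ := by exact_mod_cast hρ
  have h1g : 0 ≤ 1 - 1 / (ρ : ℝ) := by
    rw [sub_nonneg, div_le_one (by linarith)]
    exact hρ0
  induction j with
  | zero =>
    intro U hU
    rw [pow_zero, mul_one] at hU
    have : #U = 0 := by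
      have : #U < 1 := by exact_mod_cast hU
      omega
    rw [Finset.card_eq_zero] at this
    subst this
    exact ⟨fun _ => 0, by simp, by simp⟩
  | succ j ih =>
    intro U hU
    rcases U.eq_empty_or_nonempty with rfl | hne
    · exact ⟨fun _ => 0, by simp, by simp⟩
    · obtain ⟨I, hI, hIi, hIc⟩ := h U hne
      have hcard : (#(U \ I) : ℝ) ≤ #U * (1 - 1 / (ρ : ℝ)) := by
        rw [Finset.card_sdiff_of_subset hI, Nat.cast_sub (Finset.card_le_card hI)]
        have : (#U : ℝ) ≤ ρ * #I := by exact_mod_cast hIc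
        have h2 : (#U : ℝ) * (1 / ρ) ≤ #I := by
          rw [mul_one_div, div_le_iff₀ (by linarith)]
          linarith
        linarith
      obtain ⟨c, hc1, hc2⟩ := ih (U \ I) (by
        calc (#(U \ I) : ℝ) * (1 - 1 / (ρ : ℝ)) ^ j
            ≤ #U * (1 - 1 / (ρ : ℝ)) * (1 - 1 / (ρ : ℝ)) ^ j :=
              mul_le_mul_of_nonneg_right hcard (by positivity)
          _ = #U * (1 - 1 / (ρ : ℝ)) ^ (j + 1) := by ring
          _ < 1 := hU)
      refine ⟨fun x => if x ∈ I then j else c x, ?_, ?_⟩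
      · intro a ha
        simp only
        split_ifs with haI
        · omega
        · have := hc1 a (Finset.mem_sdiff.2 ⟨ha, haI⟩)
          omega
      · intro a ha b hb hab
        simp only
        split_ifs with haI hbI hbI
        · exact fun _ => hIi a haI b hbI hab
        · have := hc1 b (Finset.mem_sdiff.2 ⟨hb, hbI⟩)
          omega
        · have := hc1 a (Finset.mem_sdiff.2 ⟨ha, haI⟩)
          omega
        · exact hc2 a (Finset.mem_sdiff.2 ⟨ha, haI⟩) b (Finset.mem_sdiff.2 ⟨hb, hbI⟩) hab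

/-- a `k`-colourable graph has Hall ratio at most `k`. -/
lemma indep_of_colorable {V : Type*} (H : SimpleGraph V) (k : ℕ) (hH : H.Colorable k)
    (U : Finset V) : ∃ S ⊆ U, #U ≤ k * #S ∧ ∀ a ∈ S, ∀ b ∈ S, ¬ H.Adj a b := by
  classical
  obtain ⟨c⟩ := hH
  rcases U.eq_empty_or_nonempty with rfl | ⟨u, hu⟩
  · exact ⟨∅, Finset.Subset.refl _, by simp, by simp⟩
  by_contra hcon
  push Not at hcon
  have h1 : ∀ i : Fin k, k * #(U.filter fun x => c x = i) < #U := by
    intro i
    by_contra hle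
    push Not at hle
    obtain ⟨a, ha, b, hb, hab⟩ := hcon (U.filter fun x => c x = i) (Finset.filter_subset _ _) hle
    have h2 := (Finset.mem_filter.1 ha).2
    have h3 := (Finset.mem_filter.1 hb).2
    exact c.valid hab (h2.trans h3.symm)
  have h2 : #U = ∑ i : Fin k, #(U.filter fun x => c x = i) :=
    Finset.card_eq_sum_card_fiberwise (fun x _ => Finset.mem_coe.2 (Finset.mem_univ (c x)))
  have hk : 0 < k := (c u).pos
  have h3 : k * #U < k * #U := by
    calc k * #U = ∑ i : Fin k, k * #(U.filter fun x => c x = i) := by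
          rw [← Finset.mul_sum, ← h2]
      _ < ∑ _i : Fin k, #U := by
          apply Finset.sum_lt_sum_of_nonempty
          · exact ⟨⟨0, hk⟩, Finset.mem_univ _⟩
          · intro i _
            exact h1 i
      _ = k * #U := by simp
  exact lt_irrefl _ h3

end Pool.Agent.H86.EH
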