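import Mathlib
import Pool.Agent.H86.EH.Polylog
import Pool.Agent.H86.EH.FracDef

set_option autoImplicit false

namespace Pool.Agent.H86.EH

open Finset SimpleGraph

/-- LP duality for fractional colourings. -/
theorem frac_of_weights {V : Type} [Fintype V] [DecidableEq V] (G : SimpleGraph V) (q : ℝ)
    (hq0 : 0 ≤ q) (h : ∀ μ : V → ℝ, (∀ v, 0 ≤ μ v) →
      ∃ I : Finset V, G.IsIndepSet (I : Set V) ∧ ∑ v, μ v ≤ q * ∑ v ∈ I, μ v) :
    FracColorable G q := by
  classical
  let A : Set (Finset V → ℝ) := stdSimplex ℝ (Finset V) ∩
    {w | ∀ S : Finset V, ¬ G.IsIndepSet (S : Set V) → w S = 0}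
  let T : (Finset V → ℝ) →ₗ[ℝ] (V → ℝ) :=
    { toFun := fun w v => q * ∑ S ∈ Finset.univ.filter (fun S : Finset V => v ∈ S), w S
      map_add' := by
        intro x y
        funext v
        simp only [Pi.add_apply, Finset.sum_add_distrib]
        ring
      map_smul' := by
        intro c x
        funext v
        simp only [Pi.smul_apply, smul_eq_mul, RingHom.id_apply, ← Finset.mul_sum]
        ring }
  have hA2 : Convex ℝ A := by
    apply (convex_stdSimplex ℝ (Finset V)).inter
    intro x hx y hy a b _ _ _ S hS
    simp [hx S hS, hy S hS]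
  have hA1 : IsCompact A := by
    apply (isCompact_stdSimplex ℝ (Finset V)).inter_right
    have : {w : Finset V → ℝ | ∀ S : Finset V, ¬ G.IsIndepSet (S : Set V) → w S = 0} =
        ⋂ S : Finset V, ⋂ _ : ¬ G.IsIndepSet (S : Set V), {w | w S = 0} := by
      ext w
      simp
    rw [this]
    refine isClosed_iInter fun S => isClosed_iInter fun _ => ?_
    exact isClosed_eq (continuous_apply S) continuous_const
  let K : Set (V → ℝ) := T '' A
  have hK1 : IsCompact K := hA1.image (LinearMap.continuous_of_finiteDimensional T)
  have hK2 : Convex ℝ K := hA2.linear_image T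
  let D : Set (V → ℝ) := {x | ∀ v, 1 ≤ x v}
  have hD1 : IsClosed D := by
    have : D = ⋂ v : V, {x | 1 ≤ x v} := by
      ext x
      simp [D]
    rw [this]
    exact isClosed_iInter fun v => isClosed_le continuous_const (continuous_apply v)
  have hD2 : Convex ℝ D := by
    intro x hx y hy a b ha hb hab v
    have h1 := hx v
    have h2 := hy v
    simp only [Pi.add_apply, Pi.smul_apply, smul_eq_mul]
    nlinarith
  by_cases hdis : Disjoint K D
  · exfalso
    obtain ⟨f, s, t, hs, hst, ht⟩ := geometric_hahn_banach_compact_closed hK2 hK1 hD2 hD1 hdis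
    let μ : V → ℝ := fun v => f (Pi.single v 1)
    have hf : ∀ x : V → ℝ, f x = ∑ v, x v * μ v := by
      intro x
      conv_lhs => rw [← Finset.univ_sum_single x]
      rw [map_sum]
      refine Finset.sum_congr rfl fun v _ => ?_
      have : (Pi.single v (x v) : V → ℝ) = x v • Pi.single v (1 : ℝ) := by
        rw [← Pi.single_smul]
        simp
      rw [this, map_smul, smul_eq_mul]
    have h1D : (fun _ => 1 : V → ℝ) ∈ D := fun v => le_refl _
    have hμ : ∀ v, 0 ≤ μ v := by
      intro v
      by_contra hneg
      push Not at hneg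
      have hf1 : t < f (fun _ => 1) := ht _ h1D
      set r : ℝ := (f (fun _ => 1) - t) / (-μ v) with hr
      have hr0 : 0 < r := div_pos (by linarith) (by linarith)
      have hmem : ((fun _ => 1 : V → ℝ) + r • Pi.single v (1 : ℝ)) ∈ D := by
        intro u
        simp only [Pi.add_apply, Pi.smul_apply, smul_eq_mul]
        by_cases huv : u = v
        · subst huv
          simp only [Pi.single_eq_same]
          linarith
        · rw [Pi.single_eq_of_ne huv]
          linarith
      have h2 := ht _ hmem
      rw [map_add, map_smul, smul_eq_mul] at h2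
      have h3 : r * μ v = -(f (fun _ => 1) - t) := by
        rw [hr]
        have : μ v ≠ 0 := ne_of_lt hneg
        field_simp
      change t < f (fun _ => 1) + r * μ v at h2
      rw [h3] at h2
      linarith
    obtain ⟨I, hI, hIq⟩ := h μ hμ
    have hmemK : (fun v => if v ∈ I then q else 0) ∈ K := by
      refine ⟨Pi.single I 1, ⟨?_, ?_⟩, ?_⟩
      · exact single_mem_stdSimplex ℝ I
      · intro S hS
        rw [Pi.single_eq_of_ne]
        rintro rfl
        exact hS hI
      · funext v
        simp only [T, LinearMap.coe_mk, AddHom.coe_mk]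
        rw [Finset.sum_filter]
        have : ∀ S : Finset V, (if v ∈ S then (Pi.single I 1 : Finset V → ℝ) S else 0) =
            if S = I then (if v ∈ I then 1 else 0) else 0 := by
          intro S
          by_cases hSI : S = I
          · subst hSI
            simp
          · rw [if_neg hSI, Pi.single_eq_of_ne hSI]
            simp
        rw [Finset.sum_congr rfl fun S _ => this S]
        simp
    have h4 := hs _ hmemK
    have h5 := ht _ h1D
    rw [hf] at h4 h5
    have h6 : ∑ v, (if v ∈ I then q else 0) * μ v = q * ∑ v ∈ I, μ v := by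
      rw [Finset.mul_sum]
      simp only [ite_mul, zero_mul]
      rw [← Finset.sum_filter, Finset.filter_mem_eq_inter, Finset.univ_inter]
    rw [h6] at h4
    simp only [one_mul] at h5
    linarith
  · rw [Set.not_disjoint_iff] at hdis
    obtain ⟨x, ⟨w, hw, rfl⟩, hxD⟩ := hdis
    -- need `q ≥ 0`
    by_cases hV : Nonempty V
    · obtain ⟨v0⟩ := hV
      have h1 := hxD v0
      simp only [T, LinearMap.coe_mk, AddHom.coe_mk] at h1
      have hsum0 : 0 ≤ ∑ S ∈ Finset.univ.filter (fun S : Finset V => v0 ∈ S), w S :=
        Finset.sum_nonneg fun S _ => hw.1.1 S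
      have hq : 0 < q := by
        by_contra hq
        push Not at hq
        nlinarith
      refine ⟨fun S => q * w S, fun S => mul_nonneg hq.le (hw.1.1 S), ?_, ?_, ?_⟩
      · intro S hS
        by_contra hnot
        exact hS (by simp [hw.2 S hnot])
      · intro v
        have h2 := hxD v
        simp only [T, LinearMap.coe_mk, AddHom.coe_mk] at h2
        rw [← Finset.mul_sum]
        exact h2
      · rw [← Finset.mul_sum, hw.1.2, mul_one]
    · refine ⟨fun _ => 0, fun _ => le_rfl, fun S hS => absurd rfl hS, ?_, ?_⟩
      · intro v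
        exact absurd ⟨v⟩ hV
      · simpa using hq0

end Pool.Agent.H86.EH
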