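import Mathlib
import Pool.Agent.H86.EH.Frac

set_option autoImplicit false

namespace Pool.Agent.H86.EH

open Finset SimpleGraph

open Classical in
/-- a graph with fractional chromatic number at most `k` has Hall ratio at most `k`. -/
lemma indep_of_frac {V : Type} [Fintype V] [DecidableEq V] (H : SimpleGraph V) (k : ℕ)
    (hk : 1 ≤ k) (hH : FracColorable H k) (U : Finset V) (hU : U.Nonempty) :
    ∃ S ⊆ U, #U ≤ k * #S ∧ ∀ a ∈ S, ∀ b ∈ S, ¬ H.Adj a b := by
  by_contra hcon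
  push Not at hcon
  obtain ⟨w, hw0, hwi, hwc, hws⟩ := hH
  have h1 : (#U : ℝ) ≤ ∑ S, w S * #(U ∩ S) := by
    calc (#U : ℝ) = ∑ v ∈ U, 1 := by simp
      _ ≤ ∑ v ∈ U, ∑ S ∈ Finset.univ.filter (fun S : Finset V => v ∈ S), w S :=
          Finset.sum_le_sum fun v _ => hwc v
      _ = ∑ v ∈ U, ∑ S, (if v ∈ S then w S else 0) := by
          refine Finset.sum_congr rfl fun v _ => ?_
          rw [Finset.sum_filter]
      _ = ∑ S, ∑ v ∈ U, (if v ∈ S then w S else 0) := Finset.sum_comm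
      _ = ∑ S, w S * #(U ∩ S) := by
          refine Finset.sum_congr rfl fun S _ => ?_
          rw [← Finset.sum_filter, Finset.sum_const, nsmul_eq_mul, Finset.filter_mem_eq_inter]
          ring
  have h2 : ∀ S, (k : ℝ) * (w S * #(U ∩ S)) ≤ w S * (#U - 1) := by
    intro S
    by_cases hS : w S = 0
    · rw [hS]; simp
    · have hSi := hwi S hS
      have h3 : ¬ #U ≤ k * #(U ∩ S) := by
        intro hle
        obtain ⟨a, ha, b, hb, hab⟩ := hcon (U ∩ S) Finset.inter_subset_left hle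
        exact hSi (Finset.mem_coe.2 (Finset.mem_inter.1 ha).2)
          (Finset.mem_coe.2 (Finset.mem_inter.1 hb).2) hab.ne hab
      have h4 : k * #(U ∩ S) + 1 ≤ #U := by omega
      have h5 : (k : ℝ) * #(U ∩ S) + 1 ≤ #U := by exact_mod_cast h4
      have := hw0 S
      nlinarith
  have h3 : (k : ℝ) * #U ≤ (#U - 1) * k := by
    calc (k : ℝ) * #U ≤ k * ∑ S, w S * #(U ∩ S) := by
          apply mul_le_mul_of_nonneg_left h1 (by positivity)
      _ = ∑ S, (k : ℝ) * (w S * #(U ∩ S)) := by rw [Finset.mul_sum]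
      _ ≤ ∑ S, w S * (#U - 1) := Finset.sum_le_sum fun S _ => h2 S
      _ = (#U - 1) * ∑ S, w S := by rw [← Finset.sum_mul]; ring
      _ ≤ (#U - 1) * k := by
          apply mul_le_mul_of_nonneg_left hws
          have : 1 ≤ #U := hU.card_pos
          have : (1 : ℝ) ≤ #U := by exact_mod_cast this
          linarith
  have hk0 : (1 : ℝ) ≤ k := by exact_mod_cast hk
  nlinarith

open Classical in
/-- From the Hall ratio to arbitrary weights, with a loss of a logarithm of the maximum degree. -/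
theorem weight_of_hall {V : Type} [Fintype V] (G : SimpleGraph V) (d ρ : ℕ)
    (hd : ∀ u, #(Finset.univ.filter fun x => G.Adj u x) ≤ d)
    (hall : ∀ U : Finset V, U.Nonempty →
      ∃ I ⊆ U, (∀ a ∈ I, ∀ b ∈ I, ¬ G.Adj a b) ∧ #U ≤ ρ * #I)
    (μ : V → ℝ) (hμ : ∀ v, 0 ≤ μ v) :
    ∃ I : Finset V, (∀ a ∈ I, ∀ b ∈ I, ¬ G.Adj a b) ∧
      ∑ v, μ v ≤ 4 * ρ * (Nat.log 2 (d + 2) + 3 : ℕ) * ∑ v ∈ I, μ v := by
  set m : ℕ := Nat.log 2 (d + 2) + 3 with hm
  have hm0 : 0 < m := by omega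
  have hm0' : (0 : ℤ) < m := by exact_mod_cast hm0
  have h2m : 4 * d ≤ 2 ^ m := by
    have : d + 2 < 2 ^ (Nat.log 2 (d + 2) + 1) := Nat.lt_pow_succ_log_self (by norm_num) _
    rw [hm, pow_succ, pow_succ]
    omega
  let P : Finset V := Finset.univ.filter fun v => 0 < μ v
  let l : V → ℤ := fun v => Int.log 2 (μ v)
  have hl1 : ∀ v ∈ P, (2 : ℝ) ^ (l v) ≤ μ v := fun v hv =>
    Int.zpow_log_le_self (by norm_num) (Finset.mem_filter.1 hv).2
  have hl2 : ∀ v, μ v < (2 : ℝ) ^ (l v + 1) := fun v =>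
    Int.lt_zpow_succ_log_self (by norm_num) (μ v)
  have hsumP : ∑ v, μ v = ∑ v ∈ P, μ v := by
    rw [← Finset.sum_filter_add_sum_filter_not Finset.univ (fun v => 0 < μ v)]
    have : ∑ v ∈ Finset.univ.filter (fun v => ¬ 0 < μ v), μ v = 0 := by
      apply Finset.sum_eq_zero
      intro v hv
      have h1 := (Finset.mem_filter.1 hv).2
      push Not at h1
      exact le_antisymm h1 (hμ v)
    rw [this, add_zero]
  -- choose the residue class
  obtain ⟨r, hr⟩ : ∃ r : ℤ, ∑ v ∈ P, μ v ≤ m * ∑ v ∈ P.filter (fun v => l v % m = r), μ v := by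
    by_contra hcon
    push Not at hcon
    have h1 : ∑ v ∈ P, μ v = ∑ r ∈ Finset.Ico (0 : ℤ) m,
        ∑ v ∈ P.filter (fun v => l v % m = r), μ v := by
      rw [Finset.sum_fiberwise_of_maps_to]
      intro v _
      rw [Finset.mem_Ico]
      exact ⟨Int.emod_nonneg _ hm0'.ne', Int.emod_lt_of_pos _ hm0'⟩
    have h2 : ∑ r ∈ Finset.Ico (0 : ℤ) m,
        (m : ℝ) * ∑ v ∈ P.filter (fun v => l v % m = r), μ v <
        ∑ _r ∈ Finset.Ico (0 : ℤ) m, ∑ v ∈ P, μ v := by
      apply Finset.sum_lt_sum_of_nonempty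
      · exact ⟨0, by rw [Finset.mem_Ico]; exact ⟨le_refl _, hm0'⟩⟩
      · intro r _
        exact hcon r
    rw [← Finset.mul_sum, ← h1, Finset.sum_const, nsmul_eq_mul, Int.card_Ico] at h2
    simp at h2
  set Q : Finset V := P.filter (fun v => l v % m = r) with hQ
  have hQP : Q ⊆ P := Finset.filter_subset _ _
  -- independent sets in the levels
  have hlev : ∀ i : ℤ, ∃ I ⊆ Q.filter (fun v => l v = i), (∀ a ∈ I, ∀ b ∈ I, ¬ G.Adj a b) ∧
      #(Q.filter (fun v => l v = i)) ≤ ρ * #I := by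
    intro i
    rcases (Q.filter (fun v => l v = i)).eq_empty_or_nonempty with he | hne
    · exact ⟨∅, Finset.empty_subset _, by simp, by rw [he]; simp⟩
    · exact hall _ hne
  choose I hIs hIi hIc using hlev
  let Lv : Finset ℤ := Q.image l
  let J : Finset V := Lv.biUnion I
  have hdisj : (↑Lv : Set ℤ).PairwiseDisjoint I := by
    intro i _ j _ hij
    rw [Function.onFun, Finset.disjoint_left]
    intro v hvi hvj
    have h1 := (Finset.mem_filter.1 (hIs i hvi)).2
    have h2 := (Finset.mem_filter.1 (hIs j hvj)).2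
    exact hij (h1.symm.trans h2)
  have hJmem : ∀ v ∈ J, v ∈ Q ∧ v ∈ I (l v) := by
    intro v hv
    obtain ⟨i, _, hvi⟩ := Finset.mem_biUnion.1 hv
    have h1 := Finset.mem_filter.1 (hIs i hvi)
    rw [h1.2]
    exact ⟨h1.1, hvi⟩
  have hJ : ∑ v ∈ Q, μ v ≤ 2 * ρ * ∑ v ∈ J, μ v := by
    rw [Finset.sum_biUnion hdisj, Finset.mul_sum]
    rw [← Finset.sum_fiberwise_of_maps_to (s := Q) (t := Lv) (g := l)
      (fun v hv => Finset.mem_image_of_mem l hv)]
    refine Finset.sum_le_sum fun i _ => ?_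
    have h1 : ∑ v ∈ Q.filter (fun v => l v = i), μ v ≤
        #(Q.filter (fun v => l v = i)) * (2 : ℝ) ^ (i + 1) := by
      rw [← nsmul_eq_mul]
      apply Finset.sum_le_card_nsmul
      intro v hv
      have := hl2 v
      rw [(Finset.mem_filter.1 hv).2] at this
      exact this.le
    have h2 : #(I i) * (2 : ℝ) ^ i ≤ ∑ v ∈ I i, μ v := by
      rw [← nsmul_eq_mul]
      apply Finset.card_nsmul_le_sum
      intro v hv
      have h3 := Finset.mem_filter.1 (hIs i hv)
      have := hl1 v (hQP h3.1)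
      rw [h3.2] at this
      exact this
    have h3 : (#(Q.filter (fun v => l v = i)) : ℝ) ≤ ρ * #(I i) := by exact_mod_cast hIc i
    have h4 : (2 : ℝ) ^ (i + 1) = 2 * 2 ^ i := by
      rw [zpow_add₀ (by norm_num), zpow_one, mul_comm]
    have h5 : (0 : ℝ) < 2 ^ i := by positivity
    calc ∑ v ∈ Q.filter (fun v => l v = i), μ v ≤
        #(Q.filter (fun v => l v = i)) * (2 : ℝ) ^ (i + 1) := h1
      _ ≤ (ρ * #(I i)) * (2 : ℝ) ^ (i + 1) := mul_le_mul_of_nonneg_right h3 (by positivity)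
      _ = 2 * ρ * (#(I i) * (2 : ℝ) ^ i) := by rw [h4]; ring
      _ ≤ 2 * ρ * ∑ v ∈ I i, μ v := mul_le_mul_of_nonneg_left h2 (by positivity)
  -- remove the vertices with a heavier neighbour
  let F : Finset V := J.filter fun v => ∀ u ∈ J, G.Adj u v → l u ≤ l v
  have hFi : ∀ a ∈ F, ∀ b ∈ F, ¬ G.Adj a b := by
    intro a ha b hb hab
    obtain ⟨haJ, ha2⟩ := Finset.mem_filter.1 ha
    obtain ⟨hbJ, hb2⟩ := Finset.mem_filter.1 hb
    have h1 : l a ≤ l b := hb2 a haJ hab
    have h2 : l b ≤ l a := ha2 b hbJ hab.symm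
    have h3 : l a = l b := le_antisymm h1 h2
    have h4 := (hJmem a haJ).2
    have h5 := (hJmem b hbJ).2
    rw [← h3] at h5
    exact hIi _ a h4 b h5 hab
  have hR : ∑ v ∈ J.filter (fun v => ¬ ∀ u ∈ J, G.Adj u v → l u ≤ l v), μ v ≤
      (1 / 2) * ∑ v ∈ J, μ v := by
    have h1 : ∀ v ∈ J.filter (fun v => ¬ ∀ u ∈ J, G.Adj u v → l u ≤ l v),
        μ v ≤ ∑ u ∈ J, (if G.Adj u v then 2 * (2 : ℝ) ^ (-(m : ℤ)) * μ u else 0) := by
      intro v hv
      obtain ⟨hvJ, hv2⟩ := Finset.mem_filter.1 hv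
      push Not at hv2
      obtain ⟨u, huJ, huv, hlt⟩ := hv2
      have hu3 := (Finset.mem_filter.1 (hJmem u huJ).1).2
      have hv3 := (Finset.mem_filter.1 (hJmem v hvJ).1).2
      have hge : l v + m ≤ l u := by
        have h4 : (m : ℤ) ∣ l u - l v := by
          apply Int.dvd_of_emod_eq_zero
          rw [Int.sub_emod, hu3, hv3]
          simp
        obtain ⟨c, hc⟩ := h4
        have hc1 : 1 ≤ c := by
          by_contra hc0
          push Not at hc0
          have : (m : ℤ) * c ≤ 0 := by nlinarith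
          omega
        nlinarith
      have h5 : μ v ≤ 2 * (2 : ℝ) ^ (-(m : ℤ)) * μ u := by
        calc μ v ≤ (2 : ℝ) ^ (l v + 1) := (hl2 v).le
          _ ≤ (2 : ℝ) ^ (l u + (1 - m)) := by
              apply zpow_le_zpow_right₀ (by norm_num)
              omega
          _ = (2 : ℝ) ^ (l u) * (2 * (2 : ℝ) ^ (-(m : ℤ))) := by
              rw [zpow_add₀ (by norm_num), sub_eq_add_neg, zpow_add₀ (by norm_num), zpow_one]
          _ ≤ μ u * (2 * (2 : ℝ) ^ (-(m : ℤ))) := by
              apply mul_le_mul_of_nonneg_right _ (by positivity)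
              exact hl1 u (hQP (hJmem u huJ).1)
          _ = _ := by ring
      refine h5.trans ?_
      have h6 := Finset.single_le_sum (s := J)
        (f := fun u => if G.Adj u v then 2 * (2 : ℝ) ^ (-(m : ℤ)) * μ u else 0) (by
          intro x _
          split_ifs
          · have := hμ x
            positivity
          · exact le_refl _) huJ
      simp only [if_pos huv] at h6
      exact h6
    calc ∑ v ∈ J.filter (fun v => ¬ ∀ u ∈ J, G.Adj u v → l u ≤ l v), μ v
        ≤ ∑ v ∈ J.filter (fun v => ¬ ∀ u ∈ J, G.Adj u v → l u ≤ l v),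
          ∑ u ∈ J, (if G.Adj u v then 2 * (2 : ℝ) ^ (-(m : ℤ)) * μ u else 0) :=
          Finset.sum_le_sum h1
      _ ≤ ∑ v, ∑ u ∈ J, (if G.Adj u v then 2 * (2 : ℝ) ^ (-(m : ℤ)) * μ u else 0) := by
          apply Finset.sum_le_sum_of_subset_of_nonneg (Finset.subset_univ _)
          intro v _ _
          apply Finset.sum_nonneg
          intro u _
          split_ifs
          · have := hμ u
            positivity
          · exact le_refl _
      _ = ∑ u ∈ J, ∑ v, (if G.Adj u v then 2 * (2 : ℝ) ^ (-(m : ℤ)) * μ u else 0) :=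
          Finset.sum_comm
      _ ≤ ∑ u ∈ J, (1 / 2) * μ u := by
          refine Finset.sum_le_sum fun u _ => ?_
          rw [← Finset.sum_filter, Finset.sum_const, nsmul_eq_mul]
          have h7 : (#(Finset.univ.filter fun x => G.Adj u x) : ℝ) ≤ d := by exact_mod_cast hd u
          have h8 : (d : ℝ) * (2 * (2 : ℝ) ^ (-(m : ℤ))) ≤ 1 / 2 := by
            rw [zpow_neg, zpow_natCast]
            have h9 : (4 : ℝ) * d ≤ 2 ^ m := by exact_mod_cast h2m
            have h10 : (0 : ℝ) < 2 ^ m := by positivity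
            rw [← mul_assoc, ← div_eq_mul_inv, div_le_iff₀ h10]
            linarith
          calc (#(Finset.univ.filter fun x => G.Adj u x) : ℝ) * (2 * (2 : ℝ) ^ (-(m : ℤ)) * μ u)
              ≤ d * (2 * (2 : ℝ) ^ (-(m : ℤ)) * μ u) := by
                apply mul_le_mul_of_nonneg_right h7
                have := hμ u
                positivity
            _ = d * (2 * (2 : ℝ) ^ (-(m : ℤ))) * μ u := by ring
            _ ≤ 1 / 2 * μ u := mul_le_mul_of_nonneg_right h8 (hμ u)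
      _ = (1 / 2) * ∑ v ∈ J, μ v := by rw [Finset.mul_sum]
  have hF : ∑ v ∈ J, μ v ≤ 2 * ∑ v ∈ F, μ v := by
    have h1 := Finset.sum_filter_add_sum_filter_not J (fun v => ∀ u ∈ J, G.Adj u v → l u ≤ l v) μ
    have h2 : ∑ v ∈ F, μ v = ∑ v ∈ J.filter (fun v => ∀ u ∈ J, G.Adj u v → l u ≤ l v), μ v := rfl
    linarith
  refine ⟨F, hFi, ?_⟩
  have hm1 : (0 : ℝ) ≤ m := by positivity
  calc ∑ v, μ v = ∑ v ∈ P, μ v := hsumP
    _ ≤ m * ∑ v ∈ Q, μ v := hr
    _ ≤ m * (2 * ρ * ∑ v ∈ J, μ v) := mul_le_mul_of_nonneg_left hJ hm1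
    _ ≤ m * (2 * ρ * (2 * ∑ v ∈ F, μ v)) := by
        apply mul_le_mul_of_nonneg_left _ hm1
        apply mul_le_mul_of_nonneg_left hF (by positivity)
    _ = _ := by ring

end Pool.Agent.H86.EH
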