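import Mathlib
import Pool.Agent.H86.EH.Polylog

set_option autoImplicit false

namespace Pool.Agent.H86.EH

open Finset SimpleGraph

lemma psd_quad {V : Type*} [Fintype V] [DecidableEq V] (W : Matrix V V ℝ)
    (hW : (W + 1).PosSemidef) (x : V → ℝ) :
    0 ≤ ∑ u, ∑ v, x u * W u v * x v + ∑ u, x u ^ 2 := by
  have h := hW.dotProduct_mulVec_nonneg x
  have h2 : star x ⬝ᵥ (W + 1).mulVec x = ∑ u, ∑ v, x u * W u v * x v + ∑ u, x u ^ 2 := by
    rw [Matrix.add_mulVec, Matrix.one_mulVec, dotProduct_add]
    congr 1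
    · simp only [dotProduct, Matrix.mulVec, star_trivial, Finset.mul_sum]
      refine Finset.sum_congr rfl fun u _ => Finset.sum_congr rfl fun v _ => ?_
      ring
    · simp only [dotProduct, star_trivial]
      refine Finset.sum_congr rfl fun u _ => ?_
      ring
  rw [← h2]
  exact h

lemma entry_le_one {V : Type*} [Fintype V] [DecidableEq V] (W : Matrix V V ℝ)
    (hW : (W + 1).PosSemidef) (a b : V) (hab : a ≠ b)
    (ha : W a a = 0) (hb : W b b = 0) : W a b ≤ 1 := by
  have h := psd_quad W hW (fun x => (if x = a then 1 else 0) - (if x = b then 1 else 0))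
  have hsymm : W b a = W a b := by
    have := hW.isHermitian.apply a b
    simp only [Matrix.add_apply, star_trivial] at this
    rw [Matrix.one_apply_ne hab, Matrix.one_apply_ne hab.symm] at this
    linarith
  have e1 : ∑ u, ∑ v, ((if u = a then (1 : ℝ) else 0) - (if u = b then 1 else 0)) * W u v *
      ((if v = a then (1 : ℝ) else 0) - (if v = b then 1 else 0)) =
      W a a - W a b - W b a + W b b := by
    have a1 : ∀ u, ∑ v, ((if u = a then (1 : ℝ) else 0) - (if u = b then 1 else 0)) * W u v *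
      ((if v = a then (1 : ℝ) else 0) - (if v = b then 1 else 0)) =
      ((if u = a then (1 : ℝ) else 0) - (if u = b then 1 else 0)) * (W u a - W u b) := by
      intro u
      have a2 : ∀ v, ((if u = a then (1 : ℝ) else 0) - (if u = b then 1 else 0)) * W u v *
        ((if v = a then (1 : ℝ) else 0) - (if v = b then 1 else 0)) =
        (if v = a then ((if u = a then (1 : ℝ) else 0) - (if u = b then 1 else 0)) * W u v else 0) -
        (if v = b then ((if u = a then (1 : ℝ) else 0) - (if u = b then 1 else 0)) * W u v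
          else 0) := by
        intro v
        split_ifs <;> ring
      rw [Finset.sum_congr rfl fun v _ => a2 v, Finset.sum_sub_distrib, Finset.sum_ite_eq',
        Finset.sum_ite_eq', if_pos (Finset.mem_univ _), if_pos (Finset.mem_univ _)]
      ring
    rw [Finset.sum_congr rfl fun u _ => a1 u]
    have a3 : ∀ u, ((if u = a then (1 : ℝ) else 0) - (if u = b then 1 else 0)) *
        (W u a - W u b) = (if u = a then (W u a - W u b) else 0) -
        (if u = b then (W u a - W u b) else 0) := by
      intro u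
      split_ifs <;> ring
    rw [Finset.sum_congr rfl fun u _ => a3 u, Finset.sum_sub_distrib, Finset.sum_ite_eq',
        Finset.sum_ite_eq', if_pos (Finset.mem_univ _), if_pos (Finset.mem_univ _)]
    ring
  have e2 : ∑ u, ((if u = a then (1 : ℝ) else 0) - (if u = b then 1 else 0)) ^ 2 = 2 := by
    have : ∀ u : V, ((if u = a then (1 : ℝ) else 0) - (if u = b then 1 else 0)) ^ 2 =
        (if u = a then (1 : ℝ) else 0) + (if u = b then 1 else 0) := by
      intro u
      by_cases h1 : u = a
      · subst h1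
        simp [hab]
      · by_cases h2 : u = b
        · subst h2
          simp [h1]
        · simp [h1, h2]
    rw [Finset.sum_congr rfl fun u _ => this u, Finset.sum_add_distrib]
    simp
    norm_num
  rw [e1, e2] at h
  linarith

open Classical in
/-- large sets span many weighted edges. -/
lemma heavy_sets {V : Type*} [Fintype V] [DecidableEq V] (W : Matrix V V ℝ)
    (hW : (W + 1).PosSemidef) (hsymm : ∀ u v, W u v = W v u)
    (f : ℝ) (k : ℝ) (hk : 1 ≤ k) (hf : 4 * k ^ 2 ≤ f)
    (hsum : ∑ u, ∑ v, W u v = f * Fintype.card V) (S : Finset V)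
    (hS : f * Fintype.card V ≤ k * ∑ u ∈ S, ∑ v, W u v) :
    Fintype.card V * f / (4 * k ^ 2) ≤ ∑ u ∈ S, ∑ v ∈ S, W u v := by
  set n : ℝ := (Fintype.card V : ℝ) with hn
  have hn0 : 0 ≤ n := by positivity
  have hf0 : 1 ≤ f := by nlinarith
  set s : ℝ := f / (k * (1 + f)) with hs
  have h := psd_quad W hW (fun x => (if x ∈ S then 1 else 0) - s)
  have e1 : ∑ u, ∑ v, ((if u ∈ S then (1 : ℝ) else 0) - s) * W u v *
      ((if v ∈ S then (1 : ℝ) else 0) - s) =
      ∑ u ∈ S, ∑ v ∈ S, W u v - 2 * s * ∑ u ∈ S, ∑ v, W u v + s ^ 2 * (f * n) := by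
    have a1 : ∀ u v, ((if u ∈ S then (1 : ℝ) else 0) - s) * W u v *
      ((if v ∈ S then (1 : ℝ) else 0) - s) =
      (if u ∈ S then (if v ∈ S then W u v else 0) else 0) - s * (if u ∈ S then W u v else 0)
       - s * (if v ∈ S then W u v else 0) + s ^ 2 * W u v := by
      intro u v
      split_ifs <;> ring
    rw [Finset.sum_congr rfl fun u _ => Finset.sum_congr rfl fun v _ => a1 u v]
    simp only [Finset.sum_add_distrib, Finset.sum_sub_distrib, ← Finset.mul_sum]
    have a2 : ∑ u, ∑ v, (if u ∈ S then (if v ∈ S then W u v else 0) else 0) =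
        ∑ u ∈ S, ∑ v ∈ S, W u v := by
      rw [← Finset.sum_filter_add_sum_filter_not Finset.univ (fun u => u ∈ S)]
      have : ∑ u ∈ Finset.univ.filter (fun u => ¬ u ∈ S),
          ∑ v, (if u ∈ S then (if v ∈ S then W u v else 0) else 0) = 0 := by
        apply Finset.sum_eq_zero
        intro u hu
        apply Finset.sum_eq_zero
        intro v _
        rw [if_neg (Finset.mem_filter.1 hu).2]
      rw [this, add_zero, Finset.filter_mem_eq_inter, Finset.univ_inter]
      refine Finset.sum_congr rfl fun u hu => ?_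
      simp only [if_pos hu]
      rw [← Finset.sum_filter, Finset.filter_mem_eq_inter, Finset.univ_inter]
    have a3 : ∑ u, ∑ v, (if u ∈ S then W u v else 0) = ∑ u ∈ S, ∑ v, W u v := by
      rw [← Finset.sum_filter_add_sum_filter_not Finset.univ (fun u => u ∈ S)]
      have : ∑ u ∈ Finset.univ.filter (fun u => ¬ u ∈ S),
          ∑ v, (if u ∈ S then W u v else 0) = 0 := by
        apply Finset.sum_eq_zero
        intro u hu
        apply Finset.sum_eq_zero
        intro v _
        rw [if_neg (Finset.mem_filter.1 hu).2]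
      rw [this, add_zero, Finset.filter_mem_eq_inter, Finset.univ_inter]
      refine Finset.sum_congr rfl fun u hu => ?_
      simp only [if_pos hu]
    have a4 : ∑ u, ∑ v, (if v ∈ S then W u v else 0) = ∑ u ∈ S, ∑ v, W u v := by
      rw [Finset.sum_comm]
      rw [← a3]
      refine Finset.sum_congr rfl fun u _ => Finset.sum_congr rfl fun v _ => ?_
      rw [hsymm]
    rw [a2, a3, a4, hsum]
    ring
  have e2 : ∑ u, ((if u ∈ S then (1 : ℝ) else 0) - s) ^ 2 ≤ n + (- 2 * s * #S) + s ^ 2 * n := by
    have a1 : ∀ u : V, ((if u ∈ S then (1 : ℝ) else 0) - s) ^ 2 =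
      (if u ∈ S then (1 : ℝ) else 0) - 2 * s * (if u ∈ S then (1 : ℝ) else 0) + s ^ 2 := by
      intro u
      by_cases h1 : u ∈ S <;> simp [h1] <;> ring
    rw [Finset.sum_congr rfl fun u _ => a1 u]
    rw [Finset.sum_add_distrib, Finset.sum_sub_distrib, ← Finset.mul_sum]
    have a2 : ∑ u, (if u ∈ S then (1 : ℝ) else 0) = #S := by simp
    rw [a2]
    have a3 : (#S : ℝ) ≤ n := by
      rw [hn]
      exact_mod_cast Finset.card_le_univ S
    simp only [Finset.sum_const, Finset.card_univ, nsmul_eq_mul]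
    rw [← hn]
    linarith
  rw [e1] at h
  have hs0 : 0 ≤ s := by positivity
  have hSn : (0 : ℝ) ≤ #S := by positivity
  have hw : f * n / k ≤ ∑ u ∈ S, ∑ v, W u v := by
    rw [div_le_iff₀ (by linarith)]
    linarith
  -- main inequality
  have h3 : 2 * s * (f * n / k) - s ^ 2 * (f * n) - s ^ 2 * n - n ≤ ∑ u ∈ S, ∑ v ∈ S, W u v := by
    have h4 : 2 * s * (f * n / k) ≤ 2 * s * ∑ u ∈ S, ∑ v, W u v :=
      mul_le_mul_of_nonneg_left hw (by positivity)
    have h5 : 0 ≤ 2 * s * #S := by positivity
    linarith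
  have h6 : 2 * s * (f * n / k) - s ^ 2 * (f * n) - s ^ 2 * n - n =
      n * (f ^ 2 / (k ^ 2 * (1 + f)) - 1) := by
    rw [hs]
    field_simp
    ring
  rw [h6] at h3
  refine le_trans ?_ h3
  rw [mul_div_assoc]
  apply mul_le_mul_of_nonneg_left _ hn0
  have h7 : f / (2 * k ^ 2) ≤ f ^ 2 / (k ^ 2 * (1 + f)) := by
    rw [div_le_div_iff₀ (by positivity) (by positivity)]
    have : 0 ≤ k ^ 2 * f * (f - 1) := by
      apply mul_nonneg (by positivity)
      linarith
    nlinarith
  have h8 : 1 ≤ f / (4 * k ^ 2) := by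
    rw [le_div_iff₀ (by positivity)]
    linarith
  have h9 : f / (2 * k ^ 2) = f / (4 * k ^ 2) + f / (4 * k ^ 2) := by
    field_simp
    ring
  linarith

open Classical in
/-- Spectral theorem: weighted pigeonhole form. -/
theorem spectral_core (k g : ℕ) (hk : 1 ≤ k) : ∃ C : ℝ, 0 < C ∧ ∀ (V : Type) [Fintype V]
    [Nonempty V] [DecidableEq V] (G : SimpleGraph V) (W : Matrix V V ℝ) (f M : ℝ),
    (W + 1).PosSemidef → (∀ u v, 0 ≤ W u v) → (∀ u v, ¬ G.Adj u v → W u v = 0) →
    (∑ u, ∑ v, W u v = f * Fintype.card V) → (∀ u, ∑ v, W u v ≤ M * f) → 1 ≤ M →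
    C * M ^ g ≤ f →
    ∃ H : SimpleGraph V, H ≤ G ∧ (g : ℕ∞) ≤ H.egirth ∧
      ∀ S : Finset V, f * Fintype.card V ≤ k * ∑ u ∈ S, ∑ v, W u v →
        ∃ a ∈ S, ∃ b ∈ S, H.Adj a b := by
  have hk0 : (1 : ℝ) ≤ k := by exact_mod_cast hk
  set K : ℝ := 48 * (k : ℝ) ^ 2 with hK
  have hK1 : 48 ≤ K := by
    rw [hK]
    nlinarith
  refine ⟨2 * (g + 1) * K ^ (g + 1), by positivity, ?_⟩
  intro V _ _ _ G W f M hW h0 hG hsum hrow hM hf
  have hsymm : ∀ u v, W u v = W v u := by
    intro a b
    have := hW.isHermitian.apply b a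
    simp only [Matrix.add_apply, star_trivial] at this
    by_cases hab : a = b
    · rw [hab]
    · rw [Matrix.one_apply_ne hab, Matrix.one_apply_ne (Ne.symm hab)] at this
      linarith
  have hdiag : ∀ u, W u u = 0 := fun u => hG u u (G.loopless.irrefl u)
  set n : ℝ := (Fintype.card V : ℝ) with hn
  have hn1 : 1 ≤ n := by
    rw [hn]
    exact_mod_cast Fintype.card_pos (α := V)
  have hMg : 1 ≤ M ^ g := one_le_pow₀ hM
  have hKg : K ≤ K ^ (g + 1) := le_self_pow₀ (by linarith) (by omega)
  have hg0 : (0 : ℝ) ≤ g := by positivity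
  have hKf : K ≤ f := by
    refine le_trans ?_ hf
    calc K ≤ K ^ (g + 1) := hKg
      _ ≤ 2 * (g + 1) * K ^ (g + 1) * M ^ g := by
          have : 1 * K ^ (g + 1) * 1 ≤ 2 * (g + 1) * K ^ (g + 1) * M ^ g := by
            gcongr
            linarith
          linarith
  have hf1 : 0 < f := by linarith
  have h4k : 4 * (k : ℝ) ^ 2 ≤ f := by
    refine le_trans ?_ hKf
    rw [hK]
    nlinarith
  -- edge probabilities
  let p : Sym2 V → ℝ := Sym2.lift ⟨fun u v => K / f * W u v, fun u v => by
    show K / f * W u v = K / f * W v u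
    rw [hsymm u v]⟩
  have hp : ∀ u v, p s(u, v) = K / f * W u v := fun u v => rfl
  have hp0 : ∀ e, 0 ≤ p e := by
    intro e
    induction e using Sym2.ind with
    | _ x y =>
      rw [hp]
      have := h0 x y
      positivity
  let 𝒮 : Finset (Finset V) := Finset.univ.filter fun S : Finset V =>
    f * Fintype.card V ≤ k * ∑ u ∈ S, ∑ v, W u v
  have hcore := exists_subgraph G Finset.univ (fun a _ _ => Finset.mem_univ a)
    Finset.univ_nonempty p hp0 (K / f) (K * M) g (by positivity) (by
      rw [div_le_one hf1]; exact hKf) (by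
      intro u x hux
      rw [hp]
      have := entry_le_one W hW u x hux.ne (hdiag u) (hdiag x)
      calc K / f * W u x ≤ K / f * 1 := mul_le_mul_of_nonneg_left this (by positivity)
        _ = K / f := mul_one _) (by nlinarith) (by
      intro u
      have h1 : ∀ x, (if G.Adj u x then p s(u, x) else 0) = K / f * W u x := by
        intro x
        split_ifs with h
        · rw [hp]
        · rw [hG u x h, mul_zero]
      rw [Finset.sum_congr rfl fun x _ => h1 x, ← Finset.mul_sum]
      calc K / f * ∑ x, W u x ≤ K / f * (M * f) :=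
            mul_le_mul_of_nonneg_left (hrow u) (by positivity)
        _ = K * M := by field_simp) (by
      have hKM : 1 ≤ K * M := by nlinarith
      have h1 : (K * M) ^ (g - 2) ≤ (K * M) ^ g := pow_le_pow_right₀ hKM (by omega)
      rw [div_mul_eq_mul_div, div_mul_eq_mul_div, div_le_div_iff₀ hf1 (by norm_num)]
      calc K * g * (K * M) ^ (g - 2) * 2 ≤ K * g * (K * M) ^ g * 2 := by gcongr
        _ = 2 * g * K ^ (g + 1) * M ^ g := by rw [mul_pow]; ring
        _ ≤ 2 * (g + 1) * K ^ (g + 1) * M ^ g := by gcongr; linarith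
        _ ≤ 1 * f := by rw [one_mul]; exact hf) 𝒮 (by
      intro S hS
      refine ⟨Finset.subset_univ S, ?_⟩
      have hSk := (Finset.mem_filter.1 hS).2
      have h1 := heavy_sets W hW hsymm f k hk0 h4k hsum S hSk
      have h2 := sum_pairs_le G S p hp0
      have h3 : ∑ a ∈ S, ∑ b ∈ S, (if G.Adj a b then p s(a, b) else 0) =
          K / f * ∑ a ∈ S, ∑ b ∈ S, W a b := by
        rw [Finset.mul_sum]
        refine Finset.sum_congr rfl fun a _ => ?_
        rw [Finset.mul_sum]
        refine Finset.sum_congr rfl fun b _ => ?_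
        split_ifs with h
        · rw [hp]
        · rw [hG a b h, mul_zero]
      rw [h3] at h2
      have h4 : K / f * (Fintype.card V * f / (4 * (k : ℝ) ^ 2)) ≤
          K / f * ∑ a ∈ S, ∑ b ∈ S, W a b := mul_le_mul_of_nonneg_left h1 (by positivity)
      have h5 : K / f * (Fintype.card V * f / (4 * (k : ℝ) ^ 2)) = 12 * Fintype.card V := by
        rw [hK]
        field_simp
        ring
      rw [Finset.card_univ]
      linarith)
  obtain ⟨H, hHG, hHg, hHS⟩ := hcore
  exact ⟨H, hHG, hHg, fun S hS => hHS S (Finset.mem_filter.2 ⟨Finset.mem_univ S, hS⟩)⟩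

end Pool.Agent.H86.EH
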