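import Mathlib
import Pool.Agent.H86.EH.Spectral
import Pool.Agent.H86.EH.Frac2

set_option autoImplicit false

namespace Pool.Agent.H86.EH

open Finset SimpleGraph

variable {V : Type} [Fintype V] [DecidableEq V]

/-- the weight between two sets. -/
def ew (W : Matrix V V ℝ) (S T : Finset V) : ℝ := ∑ u ∈ S, ∑ v ∈ T, W u v

lemma symm_of_psd {W : Matrix V V ℝ} (hW : (W + 1).PosSemidef) (a b : V) : W a b = W b a := by
  have := hW.isHermitian.apply b a
  simp only [Matrix.add_apply, star_trivial] at this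
  by_cases hab : a = b
  · rw [hab]
  · rw [Matrix.one_apply_ne hab, Matrix.one_apply_ne (Ne.symm hab)] at this
    linarith

lemma sum_ind (S : Finset V) (f : V → ℝ) :
    ∑ u, (if u ∈ S then (1 : ℝ) else 0) * f u = ∑ u ∈ S, f u := by
  simp only [ite_mul, one_mul, zero_mul]
  rw [Finset.sum_ite_mem, Finset.univ_inter]

lemma ew_ind (W : Matrix V V ℝ) (S T : Finset V) :
    ∑ u, ∑ v, (if u ∈ S then (1 : ℝ) else 0) * W u v * (if v ∈ T then 1 else 0) = ew W S T := by
  have h : ∀ u, ∑ v, (if u ∈ S then (1 : ℝ) else 0) * W u v * (if v ∈ T then 1 else 0) =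
      (if u ∈ S then (1 : ℝ) else 0) * ∑ v ∈ T, W u v := by
    intro u
    rw [← sum_ind T (fun v => W u v), Finset.mul_sum]
    refine Finset.sum_congr rfl fun v _ => ?_
    ring
  rw [Finset.sum_congr rfl fun u _ => h u, sum_ind]
  rfl

lemma ew_comm {W : Matrix V V ℝ} (hs : ∀ a b, W a b = W b a) (S T : Finset V) :
    ew W S T = ew W T S := by
  unfold ew
  refine (Finset.sum_comm (f := fun u v => W u v)).trans ?_
  exact Finset.sum_congr rfl fun u _ => Finset.sum_congr rfl fun v _ => hs _ _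

lemma ew_nonneg {W : Matrix V V ℝ} (h0 : ∀ u v, 0 ≤ W u v) (S T : Finset V) : 0 ≤ ew W S T :=
  Finset.sum_nonneg fun _ _ => Finset.sum_nonneg fun _ _ => h0 _ _

/-- positivity for combinations of two indicators -/
lemma psd_two {W : Matrix V V ℝ} (hW : (W + 1).PosSemidef) (S T : Finset V) (s t : ℝ) :
    0 ≤ s ^ 2 * (ew W S S + #S) + 2 * s * t * (ew W S T + #(S ∩ T)) +
      t ^ 2 * (ew W T T + #T) := by
  have hs := symm_of_psd hW
  have h := psd_quad W hW (fun u => s * (if u ∈ S then 1 else 0) + t * (if u ∈ T then 1 else 0))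
  have e1 : ∑ u, ∑ v, (s * (if u ∈ S then (1 : ℝ) else 0) + t * (if u ∈ T then 1 else 0)) * W u v *
      (s * (if v ∈ S then 1 else 0) + t * (if v ∈ T then 1 else 0)) =
      s ^ 2 * ew W S S + s * t * ew W S T + s * t * ew W T S + t ^ 2 * ew W T T := by
    rw [← ew_ind W S S, ← ew_ind W S T, ← ew_ind W T S, ← ew_ind W T T]
    simp only [Finset.mul_sum, ← Finset.sum_add_distrib]
    refine Finset.sum_congr rfl fun u _ => Finset.sum_congr rfl fun v _ => ?_
    ring
  have e2 : ∑ u, (s * (if u ∈ S then (1 : ℝ) else 0) + t * (if u ∈ T then 1 else 0)) ^ 2 =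
      s ^ 2 * #S + 2 * s * t * #(S ∩ T) + t ^ 2 * #T := by
    have a1 : ∀ R : Finset V, (#R : ℝ) = ∑ u, (if u ∈ R then (1 : ℝ) else 0) := by
      intro R
      simp
    rw [a1 S, a1 T, a1 (S ∩ T)]
    simp only [Finset.mul_sum, ← Finset.sum_add_distrib]
    refine Finset.sum_congr rfl fun u _ => ?_
    by_cases h1 : u ∈ S <;> by_cases h2 : u ∈ T <;> simp [h1, h2, Finset.mem_inter] <;> ring
  rw [e1, e2, ew_comm hs T S] at h
  linarith

/-- A nonempty set of largest density. -/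
lemma exists_densest (W : Matrix V V ℝ) [Nonempty V] : ∃ U : Finset V, U.Nonempty ∧
    ∀ S : Finset V, S.Nonempty → ew W S S * #U ≤ ew W U U * #S := by
  obtain ⟨U, hU, hmax⟩ := Finset.exists_max_image (Finset.univ.filter fun S : Finset V => S.Nonempty)
    (fun S => ew W S S / #S) ⟨Finset.univ, by simp⟩
  have hU' := (Finset.mem_filter.1 hU).2
  refine ⟨U, hU', fun S hS => ?_⟩
  have h := hmax S (by simp [hS])
  have hU0 : (0 : ℝ) < #U := by exact_mod_cast hU'.card_pos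
  have hS0 : (0 : ℝ) < #S := by exact_mod_cast hS.card_pos
  rw [div_le_div_iff₀ hS0 hU0] at h
  exact h

/-- Passing to a set with bounded row sums. -/
lemma exists_regular {W : Matrix V V ℝ} (hW : (W + 1).PosSemidef) (h0 : ∀ u v, 0 ≤ W u v)
    (c : ℝ) (hc : 2 ≤ c) (U₁ : Finset V) (hU₁ : U₁.Nonempty) (hcU : c * #U₁ ≤ ew W U₁ U₁) :
    ∃ (U : Finset V) (ρ : ℝ), U.Nonempty ∧ c ≤ ρ ∧ ρ / 8 * #U ≤ ew W U U ∧
      ∀ u ∈ U, ∑ v ∈ U, W u v ≤ 8 * ρ := by
  classical
  have : Nonempty V := ⟨hU₁.choose⟩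
  have hs := symm_of_psd hW
  obtain ⟨U₀, hU₀, hmax⟩ := exists_densest W
  have hn0 : (0 : ℝ) < #U₀ := by exact_mod_cast hU₀.card_pos
  set ρ : ℝ := ew W U₀ U₀ / #U₀ with hρ
  have hρU : ew W U₀ U₀ = ρ * #U₀ := by rw [hρ]; field_simp
  have hmax' : ∀ S : Finset V, ew W S S ≤ ρ * #S := by
    intro S
    rcases S.eq_empty_or_nonempty with h | h
    · rw [h]; simp [ew]
    · have := hmax S h
      rw [hρU] at this
      have h2 : ew W S S * #U₀ ≤ (ρ * #S) * #U₀ := by linarith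
      exact le_of_mul_le_mul_right h2 hn0
  have hcρ : c ≤ ρ := by
    have h1 : (0 : ℝ) < #U₁ := by exact_mod_cast hU₁.card_pos
    exact le_of_mul_le_mul_right (hcU.trans (hmax' U₁)) h1
  set R : Finset V := U₀.filter fun u => 8 * ρ < ∑ v ∈ U₀, W u v with hR
  set U : Finset V := U₀ \ R with hU
  have hRU : R ⊆ U₀ := Finset.filter_subset _ _
  have hcard : (#U₀ : ℝ) = #U + #R := by
    rw [hU]
    have := Finset.card_sdiff_add_card_eq_card hRU
    exact_mod_cast this.symm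
  -- the heavy vertices are few
  have hR1 : 8 * ρ * #R ≤ ew W R U₀ := by
    unfold ew
    calc 8 * ρ * #R = ∑ _u ∈ R, 8 * ρ := by rw [Finset.sum_const, nsmul_eq_mul]; ring
      _ ≤ ∑ u ∈ R, ∑ v ∈ U₀, W u v :=
          Finset.sum_le_sum fun u hu => (Finset.mem_filter.1 hu).2.le
  have hR2 := psd_two hW R U₀ 2 (-(1 / 2))
  have hR3 := hmax' R
  have hRcard : (16 : ℝ) * #R ≤ #U₀ := by
    have h1 : (0 : ℝ) ≤ #(R ∩ U₀) := Nat.cast_nonneg _
    have h2 : (0 : ℝ) ≤ #R := Nat.cast_nonneg _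
    have h7 : (#(R ∩ U₀) : ℝ) = #R := by rw [Finset.inter_eq_left.2 hRU]
    rw [hρU] at hR2
    have h3 : 2 * (8 * ρ * #R) ≤ 4 * ((ρ + 1) * #R) + 1 / 4 * ((ρ + 1) * #U₀) := by
      nlinarith
    have h5 : 16 * ρ * #R ≤ 8 * ρ * #R + 1 / 2 * (ρ * #U₀) := by nlinarith
    have h6 : ρ * (16 * #R) ≤ ρ * #U₀ := by linarith
    exact le_of_mul_le_mul_left h6 (by linarith)
  -- the rest is dense
  have hdisj : Disjoint U R := Finset.sdiff_disjoint
  have hunion : U ∪ R = U₀ := Finset.sdiff_union_of_subset hRU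
  have hsplit : ew W U₀ U₀ = ew W U U + 2 * ew W U R + ew W R R := by
    have h1 : ew W U₀ U₀ = ew W U U + ew W U R + (ew W R U + ew W R R) := by
      rw [← hunion]
      unfold ew
      rw [Finset.sum_union hdisj]
      simp only [Finset.sum_union hdisj, Finset.sum_add_distrib]
    rw [h1, ew_comm hs R U]
    ring
  have hU2 := psd_two hW U R 1 (-1)
  have hinter : (#(U ∩ R) : ℝ) = 0 := by
    rw [Finset.disjoint_iff_inter_eq_empty.1 hdisj]; simp
  have hUd : ρ / 8 * #U₀ ≤ ew W U U := by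
    rw [hinter] at hU2
    have h1 : ρ * #U₀ + #U₀ ≤ 2 * (ew W U U + #U) + 2 * (ew W R R + #R) := by
      rw [← hρU, hsplit, hcard]
      nlinarith
    have h2 : (0 : ℝ) ≤ #R := Nat.cast_nonneg _
    have h3 : ρ * #R ≤ ρ * #U₀ / 16 := by
      have := mul_le_mul_of_nonneg_left hRcard (show (0 : ℝ) ≤ ρ by linarith)
      linarith
    have h4 : (#U : ℝ) ≤ #U₀ := by linarith
    nlinarith
  have hUne : U.Nonempty := by
    rw [← Finset.card_pos]
    have h1 : (0 : ℝ) < #U := by linarith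
    exact_mod_cast h1
  refine ⟨U, ρ, hUne, hcρ, ?_, fun u hu => ?_⟩
  · refine le_trans ?_ hUd
    have h4 : (#U : ℝ) ≤ #U₀ := by
      have : (0 : ℝ) ≤ #R := Nat.cast_nonneg _
      linarith
    apply mul_le_mul_of_nonneg_left h4
    linarith
  · have hu0 : u ∈ U₀ := (Finset.mem_sdiff.1 hu).1
    have hu1 : ¬ 8 * ρ < ∑ v ∈ U₀, W u v := by
      intro h
      exact (Finset.mem_sdiff.1 hu).2 (Finset.mem_filter.2 ⟨hu0, h⟩)
    refine le_trans ?_ (not_lt.1 hu1)
    apply Finset.sum_le_sum_of_subset_of_nonneg Finset.sdiff_subset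
    intro v _ _
    exact h0 u v

/-- heavy subsets span a large weight. -/
lemma heavy_subset {W : Matrix V V ℝ} (hW : (W + 1).PosSemidef) (f : ℝ) (k : ℝ) (hk : 1 ≤ k)
    (hf : 4 * k ^ 2 ≤ f) (U S : Finset V) (hSU : S ⊆ U) (hsum : ew W U U = f * #U)
    (hS : f * #U ≤ k * ew W S U) : #U * f / (4 * k ^ 2) ≤ ew W S S := by
  set n : ℝ := (#U : ℝ) with hn
  have hn0 : 0 ≤ n := Nat.cast_nonneg _
  have hf0 : 1 ≤ f := by nlinarith
  set s : ℝ := f / (k * (1 + f)) with hs
  have h := psd_two hW S U 1 (-s)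
  have hs0 : 0 ≤ s := by positivity
  have hSn : (0 : ℝ) ≤ #(S ∩ U) := Nat.cast_nonneg _
  have hSn2 : (#S : ℝ) ≤ n := by rw [hn]; exact_mod_cast Finset.card_le_card hSU
  have hw : f * n / k ≤ ew W S U := by
    rw [div_le_iff₀ (by linarith)]
    linarith
  have h3 : 2 * s * (f * n / k) - s ^ 2 * (f * n) - s ^ 2 * n - n ≤ ew W S S := by
    have h4 : 2 * s * (f * n / k) ≤ 2 * s * ew W S U :=
      mul_le_mul_of_nonneg_left hw (by positivity)
    have h5 : 0 ≤ 2 * s * #(S ∩ U) := mul_nonneg (by linarith) hSn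
    rw [hsum] at h
    linarith
  have h6 : 2 * s * (f * n / k) - s ^ 2 * (f * n) - s ^ 2 * n - n =
      n * (f ^ 2 / (k ^ 2 * (1 + f)) - 1) := by
    rw [hs]
    field_simp
    ring
  rw [h6] at h3
  refine le_trans ?_ h3
  rw [mul_div_assoc]
  apply mul_le_mul_of_nonneg_left _ hn0
  have h7 : f / (2 * k ^ 2) ≤ f ^ 2 / (k ^ 2 * (1 + f)) := by
    rw [div_le_div_iff₀ (by positivity) (by positivity)]
    have : 0 ≤ k ^ 2 * f * (f - 1) := by
      apply mul_nonneg (by positivity)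
      linarith
    nlinarith
  have h8 : 1 ≤ f / (4 * k ^ 2) := by
    rw [le_div_iff₀ (by positivity)]
    linarith
  have h9 : f / (2 * k ^ 2) = f / (4 * k ^ 2) + f / (4 * k ^ 2) := by
    field_simp
    ring
  linarith

end Pool.Agent.H86.EH
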