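import Mathlib
import Pool.Agent.H86.EH.Theta

set_option autoImplicit false

namespace Pool.Agent.H86.EH

open Finset SimpleGraph

/-- A weight for which no independent set is heavy excludes fractional colourings. -/
lemma not_frac_of_weight {V : Type} [Fintype V] [DecidableEq V] (H : SimpleGraph V) (k : ℕ)
    (μ : V → ℝ) (h0 : ∀ v, 0 ≤ μ v) (hpos : 0 < ∑ v, μ v)
    (h : ∀ S : Finset V, H.IsIndepSet (S : Set V) → k * ∑ v ∈ S, μ v < ∑ v, μ v) :
    ¬ FracColorable H k := by
  classical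
  rintro ⟨w, w0, wi, wc, ws⟩
  set m : ℝ := ∑ v, μ v with hm
  have h1 : m ≤ ∑ S, w S * ∑ v ∈ S, μ v := by
    calc m = ∑ v, μ v * 1 := by rw [hm]; simp
      _ ≤ ∑ v, μ v * ∑ S ∈ Finset.univ.filter (fun S : Finset V => v ∈ S), w S :=
          Finset.sum_le_sum fun v _ => mul_le_mul_of_nonneg_left (wc v) (h0 v)
      _ = ∑ v, ∑ S : Finset V, (if v ∈ S then w S * μ v else 0) := by
          refine Finset.sum_congr rfl fun v _ => ?_
          rw [Finset.sum_filter, Finset.mul_sum]
          refine Finset.sum_congr rfl fun S _ => ?_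
          split_ifs <;> ring
      _ = ∑ S : Finset V, ∑ v, (if v ∈ S then w S * μ v else 0) := Finset.sum_comm
      _ = ∑ S, w S * ∑ v ∈ S, μ v := by
          refine Finset.sum_congr rfl fun S _ => ?_
          rw [Finset.sum_ite_mem, Finset.univ_inter, Finset.mul_sum]
  by_cases hall : ∀ S, w S = 0
  · have : ∑ S, w S * ∑ v ∈ S, μ v = 0 :=
      Finset.sum_eq_zero fun S _ => by rw [hall S, zero_mul]
    linarith
  · push Not at hall
    obtain ⟨S₀, hS₀⟩ := hall
    have h2 : ∑ S, (k : ℝ) * (w S * ∑ v ∈ S, μ v) < ∑ S, w S * m := by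
      apply Finset.sum_lt_sum
      · intro S _
        by_cases hS : w S = 0
        · rw [hS]; simp
        · have := h S (wi S hS)
          have := mul_le_mul_of_nonneg_left this.le (w0 S)
          linarith
      · refine ⟨S₀, Finset.mem_univ _, ?_⟩
        have h3 := h S₀ (wi S₀ hS₀)
        have h4 : 0 < w S₀ := lt_of_le_of_ne (w0 S₀) (Ne.symm hS₀)
        have := mul_lt_mul_of_pos_left h3 h4
        linarith
    rw [← Finset.mul_sum, ← Finset.sum_mul] at h2
    have h5 : (∑ S, w S) * m ≤ k * m := mul_le_mul_of_nonneg_right ws hpos.le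
    have h6 : (k : ℝ) * m ≤ k * ∑ S, w S * ∑ v ∈ S, μ v :=
      mul_le_mul_of_nonneg_left h1 (Nat.cast_nonneg k)
    linarith

/-- The Erdős–Hajnal statement for weighted graphs with least eigenvalue at least `-1` and large
average row sum on some vertex set. -/
theorem uniform_core (k g : ℕ) (hk : 1 ≤ k) : ∃ C : ℝ, 0 < C ∧ ∀ (V : Type) [Fintype V]
    [DecidableEq V] (G : SimpleGraph V) (W : Matrix V V ℝ),
    (W + 1).PosSemidef → (∀ u v, 0 ≤ W u v) → (∀ u v, ¬ G.Adj u v → W u v = 0) →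
    ∀ U : Finset V, U.Nonempty → C * #U ≤ ∑ u ∈ U, ∑ v ∈ U, W u v →
    ∃ H : SimpleGraph V, H ≤ G ∧ (g : ℕ∞) ≤ H.egirth ∧ ¬ FracColorable H k := by
  classical
  have hk0 : (1 : ℝ) ≤ k := by exact_mod_cast hk
  set K : ℝ := 48 * (k : ℝ) ^ 2 with hK
  have hK1 : 48 ≤ K := by
    rw [hK]
    nlinarith
  set c₀ : ℝ := 2 * (g + 1) * K * (64 * K) ^ g with hc₀
  have hg0 : (0 : ℝ) ≤ g := Nat.cast_nonneg g
  have hpow : 1 ≤ (64 * K) ^ g := one_le_pow₀ (by linarith)
  have hKc : 2 * K ≤ c₀ := by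
    rw [hc₀]
    calc 2 * K = 2 * (0 + 1) * K * 1 := by ring
      _ ≤ 2 * (g + 1) * K * (64 * K) ^ g := by gcongr
  refine ⟨8 * c₀, by linarith, ?_⟩
  intro V _ _ G W hW h0 hG U₁ hU₁ hCU
  obtain ⟨U, ρ, hU, hρ, hQ, hrow⟩ := exists_regular hW h0 (8 * c₀) (by linarith) U₁ hU₁ hCU
  have hn0 : (0 : ℝ) < #U := by exact_mod_cast hU.card_pos
  obtain ⟨f, hf⟩ : ∃ f : ℝ, f = ew W U U / #U := ⟨_, rfl⟩
  have hfU : ew W U U = f * #U := by rw [hf]; field_simp
  have hfρ : ρ / 8 ≤ f := by
    rw [hfU] at hQ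
    exact le_of_mul_le_mul_right hQ hn0
  have hcf : c₀ ≤ f := by linarith
  have hKf : K ≤ f := by linarith
  have hf1 : 0 < f := by linarith
  have h4k : 4 * (k : ℝ) ^ 2 ≤ f := by
    refine le_trans ?_ hKf
    rw [hK]
    nlinarith
  have hsymm := symm_of_psd hW
  have hdiag : ∀ u, W u u = 0 := fun u => hG u u (G.loopless.irrefl u)
  -- the graph inside `U`
  obtain ⟨G', hadj⟩ : ∃ G' : SimpleGraph V, ∀ a b, G'.Adj a b ↔ G.Adj a b ∧ a ∈ U ∧ b ∈ U :=
    ⟨{ Adj := fun a b => G.Adj a b ∧ a ∈ U ∧ b ∈ U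
       symm := ⟨fun a b h => ⟨h.1.symm, h.2.2, h.2.1⟩⟩
       loopless := ⟨fun a h => G.loopless.irrefl a h.1⟩ }, fun a b => Iff.rfl⟩
  have hG' : G' ≤ G := fun a b h => ((hadj a b).1 h).1
  let p : Sym2 V → ℝ := Sym2.lift ⟨fun u v => K / f * W u v, fun u v => by
    show K / f * W u v = K / f * W v u
    rw [hsymm u v]⟩
  have hp : ∀ u v, p s(u, v) = K / f * W u v := fun u v => rfl
  have hp0 : ∀ e, 0 ≤ p e := by
    intro e
    induction e using Sym2.ind with
    | _ x y =>
      rw [hp]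
      exact mul_nonneg (div_nonneg (by linarith) hf1.le) (h0 x y)
  have hKf0 : 0 ≤ K / f := div_nonneg (by linarith) hf1.le
  have hin : ∀ u ∈ U, ∀ T ⊆ U, ∑ x ∈ T, (if G'.Adj u x then p s(u, x) else 0) =
      K / f * ∑ x ∈ T, W u x := by
    intro u hu T hT
    rw [Finset.mul_sum]
    refine Finset.sum_congr rfl fun x hx => ?_
    split_ifs with h
    · rw [hp]
    · have h' : ¬ G.Adj u x := fun h' => h ((hadj u x).2 ⟨h', hu, hT hx⟩)
      rw [hG u x h', mul_zero]
  let 𝒮 : Finset (Finset V) := Finset.univ.filter fun S : Finset V =>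
    S ⊆ U ∧ f * #U ≤ k * ew W S U
  have hcore := exists_subgraph G' U (fun a b h => ((hadj a b).1 h).2.1) hU p hp0 (K / f) (64 * K) g hKf0 (by
      rw [div_le_one hf1]; exact hKf) (by
      intro u x hux
      rw [hp]
      have := entry_le_one W hW u x hux.ne (hdiag u) (hdiag x)
      calc K / f * W u x ≤ K / f * 1 := mul_le_mul_of_nonneg_left this hKf0
        _ = K / f := mul_one _) (by linarith) (by
      intro u
      by_cases hu : u ∈ U
      · have h1 : ∑ x, (if G'.Adj u x then p s(u, x) else 0) =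
            ∑ x ∈ U, (if G'.Adj u x then p s(u, x) else 0) := by
          symm
          apply Finset.sum_subset (Finset.subset_univ U)
          intro x _ hx
          rw [if_neg]
          exact fun h => hx ((hadj u x).1 h).2.2
        rw [h1, hin u hu U le_rfl]
        calc K / f * ∑ x ∈ U, W u x ≤ K / f * (64 * f) := by
              apply mul_le_mul_of_nonneg_left _ hKf0
              have := hrow u hu
              linarith
          _ = 64 * K := by field_simp
      · have h1 : ∑ x, (if G'.Adj u x then p s(u, x) else 0) = 0 := by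
          apply Finset.sum_eq_zero
          intro x _
          rw [if_neg]
          exact fun h => hu ((hadj u x).1 h).2.1
        rw [h1]
        linarith) (by
      have h1 : (64 * K) ^ (g - 2) ≤ (64 * K) ^ g :=
        pow_le_pow_right₀ (by linarith) (by omega)
      rw [div_mul_eq_mul_div, div_mul_eq_mul_div, div_le_div_iff₀ hf1 (by norm_num)]
      calc K * g * (64 * K) ^ (g - 2) * 2 ≤ K * g * (64 * K) ^ g * 2 := by gcongr
        _ = 2 * g * K * (64 * K) ^ g := by ring
        _ ≤ 2 * (g + 1) * K * (64 * K) ^ g := by gcongr; linarith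
        _ ≤ 1 * f := by rw [one_mul]; exact hcf) 𝒮 (by
      intro S hS
      obtain ⟨hSU, hSk⟩ := (Finset.mem_filter.1 hS).2
      refine ⟨hSU, ?_⟩
      have h1 := heavy_subset hW f k hk0 h4k U S hSU hfU hSk
      have h2 := sum_pairs_le G' S p hp0
      have h3 : ∑ a ∈ S, ∑ b ∈ S, (if G'.Adj a b then p s(a, b) else 0) =
          K / f * ew W S S := by
        unfold ew
        rw [Finset.mul_sum]
        exact Finset.sum_congr rfl fun a ha => hin a (hSU ha) S hSU
      rw [h3] at h2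
      have h4 : K / f * (#U * f / (4 * (k : ℝ) ^ 2)) ≤ K / f * ew W S S :=
        mul_le_mul_of_nonneg_left h1 hKf0
      have h5 : ∀ n : ℝ, K / f * (n * f / (4 * (k : ℝ) ^ 2)) = 12 * n := by
        intro n
        rw [hK]
        field_simp
        ring
      rw [h5] at h4
      linarith)
  obtain ⟨H, hHG, hHg, hHS⟩ := hcore
  refine ⟨H, hHG.trans hG', hHg, ?_⟩
  have hμ : ∀ S : Finset V, ∑ v ∈ S, (if v ∈ U then ∑ x ∈ U, W v x else 0) = ew W (S ∩ U) U := by
    intro S
    rw [Finset.sum_ite_mem]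
    rfl
  have hμU : ∑ v, (if v ∈ U then ∑ x ∈ U, W v x else 0) = f * #U := by
    rw [hμ, Finset.univ_inter, hfU]
  refine not_frac_of_weight H k (fun v => if v ∈ U then ∑ x ∈ U, W v x else 0) ?_ ?_ ?_
  · intro v
    show 0 ≤ (if v ∈ U then ∑ x ∈ U, W v x else 0)
    split_ifs
    · exact Finset.sum_nonneg fun x _ => h0 v x
    · exact le_rfl
  · rw [hμU]
    exact mul_pos hf1 hn0
  · intro S hS
    rw [hμ, hμU]
    by_contra hcon
    push Not at hcon
    obtain ⟨a, ha, b, hb, hab⟩ := hHS (S ∩ U)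
      (Finset.mem_filter.2 ⟨Finset.mem_univ _, Finset.inter_subset_right, hcon⟩)
    exact hS (Finset.mem_coe.2 (Finset.mem_inter.1 ha).1)
      (Finset.mem_coe.2 (Finset.mem_inter.1 hb).1) hab.ne hab

end Pool.Agent.H86.EH
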