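import Mathlib
import Pool.Agent.H86.EH.Theta2

set_option autoImplicit false

namespace Pool.Agent.H86.EH

open Finset SimpleGraph

/-- Splitting a vector into classes. -/
lemma psd_classes {V : Type} [Fintype V] [DecidableEq V] {W : Matrix V V ℝ}
    (hW : (W + 1).PosSemidef) {α : Type} [Fintype α] [DecidableEq α] (κ : V → α) (x : V → ℝ) :
    ∑ u, ∑ v, x u * W u v * x v + ∑ u, x u ^ 2 ≤
      Fintype.card α * (∑ u, ∑ v, (if κ u = κ v then x u * W u v * x v else 0) +
        ∑ u, x u ^ 2) := by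
  classical
  set y : α → V → ℝ := fun r u => if κ u = r then x u else 0 with hy
  have hy1 : ∀ u, ∑ r, y r u = x u := by
    intro u
    simp [hy]
  have hy2 : ∀ u v, ∑ r, y r u * y r v = if κ u = κ v then x u * x v else 0 := by
    intro u v
    rw [Finset.sum_eq_single (κ u)]
    · have a1 : y (κ u) u = x u := by simp [hy]
      by_cases h : κ u = κ v
      · have a2 : y (κ u) v = x v := by simp [hy, h]
        rw [a1, a2, if_pos h]
      · have a2 : y (κ u) v = 0 := by simp [hy, Ne.symm h]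
        rw [a1, a2, if_neg h, mul_zero]
    · intro r _ hr
      simp only [hy]
      rw [if_neg (Ne.symm hr), zero_mul]
    · intro h
      exact absurd (Finset.mem_univ _) h
  have hsq : ∀ u v, ∑ r, ∑ s, (y r u - y s u) * (y r v - y s v) =
      2 * Fintype.card α * (if κ u = κ v then x u * x v else 0) - 2 * (x u * x v) := by
    intro u v
    have h1 : ∀ r s, (y r u - y s u) * (y r v - y s v) =
        y r u * y r v + y s u * y s v - y r u * y s v - y s u * y r v := by
      intro r s
      ring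
    simp only [h1, Finset.sum_sub_distrib, Finset.sum_add_distrib, Finset.sum_const,
      Finset.card_univ, nsmul_eq_mul, ← Finset.mul_sum, ← Finset.sum_mul, hy1, hy2]
    ring
  have hsum : 0 ≤ ∑ r, ∑ s, (∑ u, ∑ v, (y r u - y s u) * W u v * (y r v - y s v) +
      ∑ u, (y r u - y s u) ^ 2) :=
    Finset.sum_nonneg fun r _ => Finset.sum_nonneg fun s _ => psd_quad W hW _
  simp only [Finset.sum_add_distrib] at hsum
  have e1 : ∑ r, ∑ s, ∑ u, ∑ v, (y r u - y s u) * W u v * (y r v - y s v) =
      ∑ u, ∑ v, W u v * (∑ r, ∑ s, (y r u - y s u) * (y r v - y s v)) := by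
    calc ∑ r, ∑ s, ∑ u, ∑ v, (y r u - y s u) * W u v * (y r v - y s v)
        = ∑ r, ∑ u, ∑ s, ∑ v, (y r u - y s u) * W u v * (y r v - y s v) :=
          Finset.sum_congr rfl fun r _ => Finset.sum_comm
      _ = ∑ u, ∑ r, ∑ s, ∑ v, (y r u - y s u) * W u v * (y r v - y s v) := Finset.sum_comm
      _ = ∑ u, ∑ r, ∑ v, ∑ s, (y r u - y s u) * W u v * (y r v - y s v) :=
          Finset.sum_congr rfl fun u _ => Finset.sum_congr rfl fun r _ => Finset.sum_comm
      _ = ∑ u, ∑ v, ∑ r, ∑ s, (y r u - y s u) * W u v * (y r v - y s v) :=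
          Finset.sum_congr rfl fun u _ => Finset.sum_comm
      _ = _ := by
          refine Finset.sum_congr rfl fun u _ => Finset.sum_congr rfl fun v _ => ?_
          rw [Finset.mul_sum]
          refine Finset.sum_congr rfl fun r _ => ?_
          rw [Finset.mul_sum]
          refine Finset.sum_congr rfl fun s _ => ?_
          ring
  have e2 : ∑ r, ∑ s, ∑ u, (y r u - y s u) ^ 2 =
      2 * Fintype.card α * (∑ u, x u ^ 2) - 2 * ∑ u, x u ^ 2 := by
    calc ∑ r, ∑ s, ∑ u, (y r u - y s u) ^ 2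
        = ∑ r, ∑ u, ∑ s, (y r u - y s u) ^ 2 :=
          Finset.sum_congr rfl fun r _ => Finset.sum_comm
      _ = ∑ u, ∑ r, ∑ s, (y r u - y s u) ^ 2 := Finset.sum_comm
      _ = ∑ u, (2 * Fintype.card α * x u ^ 2 - 2 * x u ^ 2) := by
          refine Finset.sum_congr rfl fun u _ => ?_
          have h1 := hsq u u
          rw [if_pos rfl] at h1
          have h2 : ∑ r, ∑ s, (y r u - y s u) ^ 2 =
              ∑ r, ∑ s, (y r u - y s u) * (y r u - y s u) :=
            Finset.sum_congr rfl fun r _ => Finset.sum_congr rfl fun s _ => sq _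
          rw [h2, h1]
          ring
      _ = _ := by
          rw [Finset.sum_sub_distrib, ← Finset.mul_sum, ← Finset.mul_sum]
  rw [e1, e2] at hsum
  simp only [hsq] at hsum
  have e3 : ∑ u, ∑ v, W u v * (2 * Fintype.card α * (if κ u = κ v then x u * x v else 0) -
      2 * (x u * x v)) =
      2 * Fintype.card α * (∑ u, ∑ v, (if κ u = κ v then x u * W u v * x v else 0)) -
        2 * ∑ u, ∑ v, x u * W u v * x v := by
    simp only [Finset.mul_sum, ← Finset.sum_sub_distrib]
    refine Finset.sum_congr rfl fun u _ => Finset.sum_congr rfl fun v _ => ?_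
    split_ifs <;> ring
  rw [e3] at hsum
  linarith

/-- From uniform weights to arbitrary weights with a logarithmic loss. -/
lemma form_le {V : Type} [Fintype V] [DecidableEq V] {W : Matrix V V ℝ}
    (hW : (W + 1).PosSemidef) (h0 : ∀ u v, 0 ≤ W u v) (c : ℝ) (hc : 0 ≤ c)
    (hS : ∀ S : Finset V, ew W S S ≤ c * #S) (D : ℕ) (hD : ∀ u, ∑ v, W u v ≤ 2 ^ D)
    (x : V → ℝ) (hx : ∀ u, 0 ≤ x u) :
    ∑ u, ∑ v, x u * W u v * x v ≤ (D + 1) * (4 * c + 3) * ∑ u, x u ^ 2 := by
  classical
  have hsymm := symm_of_psd hW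
  set l : V → ℤ := fun u => Int.log 2 (x u) with hl
  set N : ℝ := ∑ u, x u ^ 2 with hN
  have hN0 : 0 ≤ N := Finset.sum_nonneg fun u _ => sq_nonneg _
  have hlo : ∀ u, 0 < x u → (2 : ℝ) ^ l u ≤ x u := by
    intro u hu
    have := Int.zpow_log_le_self (b := 2) (r := x u) (by norm_num) hu
    exact_mod_cast this
  have hhi : ∀ u, x u < (2 : ℝ) ^ (l u + 1) := by
    intro u
    have := Int.lt_zpow_succ_log_self (b := 2) (by norm_num) (x u)
    exact_mod_cast this
  have h := psd_classes hW (fun u => ((l u : ℤ) : ZMod (D + 1))) x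
  rw [ZMod.card] at h
  -- the pointwise estimate
  have hpt : ∀ u v, (if ((l u : ℤ) : ZMod (D + 1)) = ((l v : ℤ) : ZMod (D + 1)) then
      x u * W u v * x v else 0) ≤ (if l u = l v then x u * W u v * x v else 0) +
        ((2 : ℝ) ^ D)⁻¹ * (x u ^ 2 * W u v + x v ^ 2 * W v u) := by
    intro u v
    have hW0 := h0 u v
    have hpos : 0 ≤ ((2 : ℝ) ^ D)⁻¹ * (x u ^ 2 * W u v + x v ^ 2 * W v u) := by
      have := h0 v u
      positivity
    by_cases h1 : l u = l v
    · rw [if_pos h1, if_pos (by rw [h1])]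
      linarith
    · rw [if_neg h1, zero_add]
      split_ifs with h2
      · -- the levels are far apart
        have key : ∀ a b, ((l a : ℤ) : ZMod (D + 1)) = ((l b : ℤ) : ZMod (D + 1)) →
            l a < l b → x a * x b ≤ ((2 : ℝ) ^ D)⁻¹ * x b ^ 2 := by
          intro a b hab hlt
          rcases (hx b).eq_or_lt with hb | hb
          · rw [← hb]; simp
          have h3 : ((D + 1 : ℕ) : ℤ) ∣ l b - l a :=
            (ZMod.intCast_eq_intCast_iff_dvd_sub _ _ _).1 hab
          have h4 : ((D + 1 : ℕ) : ℤ) ≤ l b - l a := Int.le_of_dvd (by omega) h3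
          have h5 : l a + 1 ≤ l b - D := by push_cast at h4; omega
          have h6 : x a ≤ ((2 : ℝ) ^ D)⁻¹ * x b := by
            calc x a ≤ (2 : ℝ) ^ (l a + 1) := (hhi a).le
              _ ≤ (2 : ℝ) ^ (l b - D) := zpow_le_zpow_right₀ (by norm_num) h5
              _ = ((2 : ℝ) ^ D)⁻¹ * (2 : ℝ) ^ l b := by
                  rw [zpow_sub₀ (by norm_num), zpow_natCast]
                  field_simp
              _ ≤ ((2 : ℝ) ^ D)⁻¹ * x b :=
                  mul_le_mul_of_nonneg_left (hlo b hb) (by positivity)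
          calc x a * x b ≤ ((2 : ℝ) ^ D)⁻¹ * x b * x b :=
                mul_le_mul_of_nonneg_right h6 hb.le
            _ = _ := by ring
        have h7 : x u * x v ≤ ((2 : ℝ) ^ D)⁻¹ * (x u ^ 2 + x v ^ 2) := by
          have p1 : 0 ≤ ((2 : ℝ) ^ D)⁻¹ * x u ^ 2 := by positivity
          have p2 : 0 ≤ ((2 : ℝ) ^ D)⁻¹ * x v ^ 2 := by positivity
          rcases lt_or_gt_of_ne h1 with h8 | h8
          · have := key u v h2 h8
            linarith
          · have := key v u h2.symm h8
            linarith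
        rw [hsymm v u]
        calc x u * W u v * x v = (x u * x v) * W u v := by ring
          _ ≤ (((2 : ℝ) ^ D)⁻¹ * (x u ^ 2 + x v ^ 2)) * W u v :=
              mul_le_mul_of_nonneg_right h7 hW0
          _ = _ := by ring
      · exact hpos
  -- the sum of the far pairs
  have hfar : ∑ u, ∑ v, ((2 : ℝ) ^ D)⁻¹ * (x u ^ 2 * W u v + x v ^ 2 * W v u) ≤ 2 * N := by
    have h1 : ∑ u, ∑ v, x u ^ 2 * W u v ≤ 2 ^ D * N := by
      rw [hN, Finset.mul_sum]
      refine Finset.sum_le_sum fun u _ => ?_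
      rw [← Finset.mul_sum, mul_comm]
      exact mul_le_mul_of_nonneg_right (hD u) (sq_nonneg _)
    have h2 : ∑ u, ∑ v, x v ^ 2 * W v u = ∑ u, ∑ v, x u ^ 2 * W u v := Finset.sum_comm
    have h4 : ∑ u, ∑ v, ((2 : ℝ) ^ D)⁻¹ * (x u ^ 2 * W u v + x v ^ 2 * W v u) =
        ((2 : ℝ) ^ D)⁻¹ * (∑ u, ∑ v, x u ^ 2 * W u v + ∑ u, ∑ v, x v ^ 2 * W v u) := by
      simp only [Finset.mul_sum, mul_add, Finset.sum_add_distrib]
    rw [h4, h2]
    have h3 : (0 : ℝ) < 2 ^ D := by positivity
    calc ((2 : ℝ) ^ D)⁻¹ * (∑ u, ∑ v, x u ^ 2 * W u v + ∑ u, ∑ v, x u ^ 2 * W u v)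
        ≤ ((2 : ℝ) ^ D)⁻¹ * (2 ^ D * N + 2 ^ D * N) := by
          apply mul_le_mul_of_nonneg_left _ (by positivity)
          linarith
      _ = 2 * N := by field_simp; ring
  -- the sum over the levels
  have hnear : ∑ u, ∑ v, (if l u = l v then x u * W u v * x v else 0) ≤ 4 * c * N := by
    set P : Finset V := Finset.univ.filter fun u => 0 < x u with hP
    set I : Finset ℤ := P.image l with hI
    set L : ℤ → Finset V := fun i => P.filter fun u => l u = i with hL
    have hx0 : ∀ u, u ∉ P → x u = 0 := by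
      intro u hu
      have : ¬ 0 < x u := fun h' => hu (Finset.mem_filter.2 ⟨Finset.mem_univ _, h'⟩)
      exact le_antisymm (not_lt.1 this) (hx u)
    have h1 : ∑ u, ∑ v, (if l u = l v then x u * W u v * x v else 0) =
        ∑ u ∈ P, ∑ v ∈ L (l u), x u * W u v * x v := by
      rw [← Finset.sum_subset (Finset.subset_univ P)]
      · refine Finset.sum_congr rfl fun u _ => ?_
        rw [← Finset.sum_filter]
        symm
        apply Finset.sum_subset
        · intro v hv
          have := (Finset.mem_filter.1 hv).2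
          exact Finset.mem_filter.2 ⟨Finset.mem_univ _, this.symm⟩
        · intro v hv hv2
          have h3 : v ∉ P := fun hvP => hv2 (Finset.mem_filter.2 ⟨hvP, (Finset.mem_filter.1 hv).2.symm⟩)
          rw [hx0 v h3, mul_zero]
      · intro u _ hu
        apply Finset.sum_eq_zero
        intro v _
        rw [hx0 u hu]
        simp
    rw [h1, ← Finset.sum_fiberwise_of_maps_to (g := l) (t := I)
      (fun u hu => Finset.mem_image_of_mem l hu)]
    have h2 : ∀ i, ∑ u ∈ L i, ∑ v ∈ L (l u), x u * W u v * x v ≤ ∑ u ∈ L i, 4 * c * x u ^ 2 := by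
      intro i
      have h3 : ∀ u ∈ L i, l u = i := fun u hu => (Finset.mem_filter.1 hu).2
      have h4 : ∀ u ∈ L i, 0 < x u := fun u hu =>
        (Finset.mem_filter.1 (Finset.mem_filter.1 hu).1).2
      have h5 : (2 : ℝ) ^ (i + 1) = 2 * (2 : ℝ) ^ i := by
        rw [zpow_add₀ (by norm_num), zpow_one]; ring
      have h6 : (0 : ℝ) < (2 : ℝ) ^ i := by positivity
      calc ∑ u ∈ L i, ∑ v ∈ L (l u), x u * W u v * x v
          = ∑ u ∈ L i, ∑ v ∈ L i, x u * W u v * x v :=
            Finset.sum_congr rfl fun u hu => by rw [h3 u hu]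
        _ ≤ ∑ u ∈ L i, ∑ v ∈ L i, (4 * ((2 : ℝ) ^ i) ^ 2) * W u v := by
            refine Finset.sum_le_sum fun u hu => Finset.sum_le_sum fun v hv => ?_
            have a1 : x u ≤ 2 * (2 : ℝ) ^ i := by
              have := hhi u
              rw [h3 u hu, h5] at this
              exact this.le
            have a2 : x v ≤ 2 * (2 : ℝ) ^ i := by
              have := hhi v
              rw [h3 v hv, h5] at this
              exact this.le
            calc x u * W u v * x v = (x u * x v) * W u v := by ring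
              _ ≤ (2 * (2 : ℝ) ^ i * (2 * (2 : ℝ) ^ i)) * W u v := by
                  apply mul_le_mul_of_nonneg_right _ (h0 u v)
                  exact mul_le_mul a1 a2 (hx v) (by positivity)
              _ = _ := by ring
        _ = (4 * ((2 : ℝ) ^ i) ^ 2) * ew W (L i) (L i) := by
            unfold ew
            simp only [Finset.mul_sum]
        _ ≤ (4 * ((2 : ℝ) ^ i) ^ 2) * (c * #(L i)) :=
            mul_le_mul_of_nonneg_left (hS _) (by positivity)
        _ = ∑ _u ∈ L i, 4 * c * ((2 : ℝ) ^ i) ^ 2 := by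
            rw [Finset.sum_const, nsmul_eq_mul]; ring
        _ ≤ ∑ u ∈ L i, 4 * c * x u ^ 2 := by
            refine Finset.sum_le_sum fun u hu => ?_
            apply mul_le_mul_of_nonneg_left _ (by linarith)
            have := hlo u (h4 u hu)
            rw [h3 u hu] at this
            exact pow_le_pow_left₀ h6.le this 2
    calc ∑ i ∈ I, ∑ u ∈ P with l u = i, ∑ v ∈ L (l u), x u * W u v * x v
        ≤ ∑ i ∈ I, ∑ u ∈ P with l u = i, 4 * c * x u ^ 2 :=
          Finset.sum_le_sum fun i _ => h2 i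
      _ = ∑ u ∈ P, 4 * c * x u ^ 2 :=
          Finset.sum_fiberwise_of_maps_to (fun u hu => Finset.mem_image_of_mem l hu) _
      _ ≤ ∑ u, 4 * c * x u ^ 2 := by
          apply Finset.sum_le_sum_of_subset_of_nonneg (Finset.subset_univ P)
          intro u _ _
          have := sq_nonneg (x u)
          have h9 : 0 ≤ 4 * c := by linarith
          exact mul_nonneg h9 this
      _ = 4 * c * N := by rw [← Finset.mul_sum]
  have htot : ∑ u, ∑ v, (if ((l u : ℤ) : ZMod (D + 1)) = ((l v : ℤ) : ZMod (D + 1)) then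
      x u * W u v * x v else 0) ≤ 4 * c * N + 2 * N := by
    calc _ ≤ ∑ u, ∑ v, ((if l u = l v then x u * W u v * x v else 0) +
          ((2 : ℝ) ^ D)⁻¹ * (x u ^ 2 * W u v + x v ^ 2 * W v u)) :=
          Finset.sum_le_sum fun u _ => Finset.sum_le_sum fun v _ => hpt u v
      _ = ∑ u, ∑ v, (if l u = l v then x u * W u v * x v else 0) +
          ∑ u, ∑ v, ((2 : ℝ) ^ D)⁻¹ * (x u ^ 2 * W u v + x v ^ 2 * W v u) := by
          simp only [Finset.sum_add_distrib]
      _ ≤ _ := add_le_add hnear hfar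
  push_cast at h
  have hD1 : (0 : ℝ) ≤ D + 1 := by positivity
  have h9 : ((D : ℝ) + 1) * (∑ u, ∑ v, (if ((l u : ℤ) : ZMod (D + 1)) =
      ((l v : ℤ) : ZMod (D + 1)) then x u * W u v * x v else 0) + N) ≤
      (D + 1) * (4 * c * N + 2 * N + N) := by
    apply mul_le_mul_of_nonneg_left _ hD1
    linarith
  calc ∑ u, ∑ v, x u * W u v * x v ≤ ∑ u, ∑ v, x u * W u v * x v + N := by linarith
    _ ≤ _ := h
    _ ≤ _ := h9
    _ = _ := by ring

end Pool.Agent.H86.EH
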