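import Mathlib
import Pool.Agent.H86.EH.Theta3

set_option autoImplicit false

namespace Pool.Agent.H86.EH

open Finset SimpleGraph

/-- A proper colouring with `k` colours is a fractional colouring of weight `k`. -/
lemma frac_of_colorable {V : Type} [Fintype V] [DecidableEq V] (H : SimpleGraph V) (k : ℕ)
    (h : H.Colorable k) : FracColorable H k := by
  classical
  obtain ⟨c⟩ := h
  refine ⟨fun S => ∑ i : Fin k, if S = Finset.univ.filter (fun v => c v = i) then 1 else 0,
    fun S => Finset.sum_nonneg fun i _ => by split_ifs <;> norm_num, ?_, ?_, ?_⟩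
  · intro S hS
    obtain ⟨i, hi⟩ : ∃ i : Fin k, S = Finset.univ.filter (fun v => c v = i) := by
      by_contra hcon
      push Not at hcon
      exact hS (Finset.sum_eq_zero fun i _ => if_neg (hcon i))
    intro a ha b hb _ hab
    rw [hi] at ha hb
    have h1 : c a = i := by simpa using ha
    have h2 : c b = i := by simpa using hb
    exact c.valid hab (h1.trans h2.symm)
  · intro v
    rw [Finset.sum_comm]
    calc (1 : ℝ) = ∑ S ∈ Finset.univ.filter (fun S : Finset V => v ∈ S),
          (if S = Finset.univ.filter (fun w => c w = c v) then (1 : ℝ) else 0) := by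
          rw [Finset.sum_ite_eq', if_pos]
          simp
      _ ≤ ∑ i : Fin k, ∑ S ∈ Finset.univ.filter (fun S : Finset V => v ∈ S),
          (if S = Finset.univ.filter (fun w => c w = i) then (1 : ℝ) else 0) :=
          Finset.single_le_sum (f := fun i : Fin k =>
            ∑ S ∈ Finset.univ.filter (fun S : Finset V => v ∈ S),
              (if S = Finset.univ.filter (fun w => c w = i) then (1 : ℝ) else 0))
            (fun i _ => Finset.sum_nonneg fun S _ => by split_ifs <;> norm_num)
            (Finset.mem_univ (c v))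
  · rw [Finset.sum_comm]
    simp

/-- monotonicity -/
lemma frac_mono {V : Type} [Fintype V] [DecidableEq V] (H : SimpleGraph V) {q q' : ℝ}
    (hq : q ≤ q') (h : FracColorable H q) : FracColorable H q' := by
  obtain ⟨w, w1, w2, w3, w4⟩ := h
  exact ⟨w, w1, w2, w3, w4.trans hq⟩

lemma lt_chromatic_of_not_frac {V : Type} [Fintype V] [DecidableEq V] (H : SimpleGraph V)
    (k : ℕ) (h : ¬ FracColorable H k) : (k : ℕ∞) < H.chromaticNumber := by
  by_contra hcon
  push Not at hcon
  exact h (frac_of_colorable H k (SimpleGraph.chromaticNumber_le_iff_colorable.1 hcon))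

/-- The Erdős–Hajnal statement for graphs with a weighting with a large eigenvalue. -/
theorem eigenvalue_core (k g : ℕ) (hk : 1 ≤ k) : ∃ C : ℝ, 0 < C ∧ ∀ (V : Type) [Fintype V]
    [DecidableEq V] (G : SimpleGraph V) (W : Matrix V V ℝ),
    (W + 1).PosSemidef → (∀ u v, 0 ≤ W u v) → (∀ u v, ¬ G.Adj u v → W u v = 0) →
    ∀ (D : ℕ) (x : V → ℝ), x ≠ 0 → (∀ u, ∑ v, W u v ≤ 2 ^ D) →
    C * (D + 1) * ∑ u, x u ^ 2 ≤ ∑ u, ∑ v, x u * W u v * x v →
    ∃ H : SimpleGraph V, H ≤ G ∧ (g : ℕ∞) ≤ H.egirth ∧ ¬ FracColorable H k := by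
  obtain ⟨C, hC0, hC⟩ := uniform_core k g hk
  refine ⟨4 * C + 4, by linarith, ?_⟩
  intro V _ _ G W hW h0 hG D x hx hD hxW
  by_contra hcon
  have hS : ∀ S : Finset V, ew W S S ≤ C * #S := by
    intro S
    rcases S.eq_empty_or_nonempty with h | h
    · rw [h]; simp [ew]
    · by_contra h2
      push Not at h2
      exact hcon (hC V G W hW h0 hG S h h2.le)
  have h1 := form_le hW h0 C hC0.le hS D hD (fun u => |x u|) (fun u => abs_nonneg _)
  have h2 : ∑ u, ∑ v, x u * W u v * x v ≤ ∑ u, ∑ v, |x u| * W u v * |x v| := by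
    refine Finset.sum_le_sum fun u _ => Finset.sum_le_sum fun v _ => ?_
    calc x u * W u v * x v ≤ |x u * W u v * x v| := le_abs_self _
      _ = |x u| * W u v * |x v| := by rw [abs_mul, abs_mul, abs_of_nonneg (h0 u v)]
  have h3 : ∑ u, |x u| ^ 2 = ∑ u, x u ^ 2 := by simp only [sq_abs]
  rw [h3] at h1
  have h4 : 0 < ∑ u, x u ^ 2 := by
    obtain ⟨u, hu⟩ : ∃ u, x u ≠ 0 := by
      by_contra h5
      push Not at h5
      exact hx (funext h5)
    exact Finset.sum_pos' (fun u _ => sq_nonneg _) ⟨u, Finset.mem_univ u, by positivity⟩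
  have h5 : (0 : ℝ) < (D + 1) * ∑ u, x u ^ 2 := by positivity
  nlinarith

end Pool.Agent.H86.EH
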