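import Mathlib

set_option autoImplicit false

namespace Pool.Agent.H86.EH

/-- `G` is vector `t`-colourable (Karger, Motwani, Sudan): there are unit vectors such that the
inner product of the vectors of adjacent vertices is at most `-1 / (t - 1)`. -/
def VecColorable {V : Type} [Fintype V] (G : SimpleGraph V) (t : ℝ) : Prop :=
  ∃ s : V → EuclideanSpace ℝ V, (∀ v, ‖s v‖ = 1) ∧
    ∀ u v, G.Adj u v → inner ℝ (s u) (s v) ≤ -1 / (t - 1)

end Pool.Agent.H86.EH
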