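import Mathlib
import Pool.Agent.H86.EH.VecDef

set_option autoImplicit false

namespace Pool.Agent.H86.EH

open Finset

variable {V : Type} [Fintype V] [DecidableEq V]

lemma conv_lt {a b x x' y y' : ℝ} (ha : 0 ≤ a) (hb : 0 ≤ b) (hab : a + b = 1) (h : x < y)
    (h' : x' < y') : a * x + b * x' < a * y + b * y' := by
  rcases ha.eq_or_lt with h0 | h0
  · have hb1 : b = 1 := by linarith
    rw [← h0, hb1]; linarith
  · have h1 := mul_lt_mul_of_pos_left h h0
    have h2 := mul_le_mul_of_nonneg_left h'.le hb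
    linarith

open scoped MatrixOrder in
/-- The Gram matrix gives vectors. -/
lemma vec_of_psd {G : SimpleGraph V} {t : ℝ} (M : Matrix V V ℝ) (hM : M.PosSemidef)
    (h1 : ∀ v, M v v = 1) (h2 : ∀ u v, G.Adj u v → M u v ≤ -1 / (t - 1)) : VecColorable G t := by
  obtain ⟨B, hB⟩ := CStarAlgebra.nonneg_iff_eq_star_mul_self.mp hM.nonneg
  have key : ∀ u v, inner ℝ (WithLp.toLp 2 (fun w => B w u) : EuclideanSpace ℝ V)
      (WithLp.toLp 2 (fun w => B w v)) = M u v := by
    intro u v
    rw [hB, Matrix.star_eq_conjTranspose, Matrix.mul_apply]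
    simp only [PiLp.inner_apply, Matrix.conjTranspose_apply, star_trivial]
    refine Finset.sum_congr rfl fun w _ => ?_
    simp [mul_comm]
  refine ⟨fun v => WithLp.toLp 2 (fun w => B w v), fun v => ?_, fun u v huv => ?_⟩
  · have h3 := key v v
    rw [real_inner_self_eq_norm_sq, h1] at h3
    have h4 := norm_nonneg (WithLp.toLp 2 (fun w => B w v) : EuclideanSpace ℝ V)
    nlinarith
  · rw [key]
    exact h2 u v huv

/-- The open convex set of the slacks. -/
def slack (G : SimpleGraph V) (τ : ℝ) : Set ((V → ℝ) × (V → V → ℝ)) :=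
  {p | ∃ M : Matrix V V ℝ, M.PosSemidef ∧ (∀ v, M v v - 1 < p.1 v) ∧
    ∀ u v, G.Adj u v → M u v + τ < p.2 u v}

lemma slack_convex (G : SimpleGraph V) (τ : ℝ) : Convex ℝ (slack G τ) := by
  rintro p ⟨M, hM, hM1, hM2⟩ q ⟨N, hN, hN1, hN2⟩ a b ha hb hab
  refine ⟨a • M + b • N, (hM.smul ha).add (hN.smul hb), ?_, ?_⟩
  · intro v
    have := conv_lt ha hb hab (hM1 v) (hN1 v)
    simp only [Matrix.add_apply, Matrix.smul_apply, smul_eq_mul, Prod.fst_add, Prod.smul_fst,
      Pi.add_apply, Pi.smul_apply]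
    have e : a * (M v v - 1) + b * (N v v - 1) = a * M v v + b * N v v - (a + b) := by ring
    rw [e, hab] at this
    exact this
  · intro u v huv
    have := conv_lt ha hb hab (hM2 u v huv) (hN2 u v huv)
    simp only [Matrix.add_apply, Matrix.smul_apply, smul_eq_mul, Prod.snd_add, Prod.smul_snd,
      Pi.add_apply, Pi.smul_apply]
    have e : a * (M u v + τ) + b * (N u v + τ) = a * M u v + b * N u v + (a + b) * τ := by ring
    rw [e, hab, one_mul] at this
    exact this

lemma slack_open (G : SimpleGraph V) (τ : ℝ) : IsOpen (slack G τ) := by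
  have e : slack G τ = ⋃ M : {M : Matrix V V ℝ // M.PosSemidef},
      ((⋂ v, {p : (V → ℝ) × (V → V → ℝ) | M.1 v v - 1 < p.1 v}) ∩
        ⋂ u, ⋂ v, ⋂ _ : G.Adj u v, {p : (V → ℝ) × (V → V → ℝ) | M.1 u v + τ < p.2 u v}) := by
    ext p
    simp only [slack, Set.mem_ofPred_eq, Set.mem_iUnion, Set.mem_inter_iff, Set.mem_iInter,
      Subtype.exists, exists_prop]
  rw [e]
  refine isOpen_iUnion fun M => IsOpen.inter ?_ ?_
  · refine isOpen_iInter_of_finite fun v => ?_
    exact isOpen_lt continuous_const (by fun_prop)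
  · refine isOpen_iInter_of_finite fun u => isOpen_iInter_of_finite fun v =>
      isOpen_iInter_of_finite fun _ => ?_
    exact isOpen_lt continuous_const (by fun_prop)

lemma zero_notMem_slack {G : SimpleGraph V} {t : ℝ} (h : ¬ VecColorable G t) :
    (0 : (V → ℝ) × (V → V → ℝ)) ∉ slack G (1 / (t - 1)) := by
  rintro ⟨M, hM, h1, h2⟩
  apply h
  have hd : (Matrix.diagonal fun v => 1 - M v v).PosSemidef := by
    rw [Matrix.posSemidef_diagonal_iff]
    intro v
    have := h1 v
    simp only [Prod.fst_zero, Pi.zero_apply] at this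
    linarith
  refine vec_of_psd (M + Matrix.diagonal fun v => 1 - M v v) (hM.add hd) ?_ ?_
  · intro v
    simp
  · intro u v huv
    have := h2 u v huv
    simp only [Prod.snd_zero, Pi.zero_apply] at this
    rw [Matrix.add_apply, Matrix.diagonal_apply_ne _ huv.ne, add_zero]
    have e : -1 / (t - 1) = -(1 / (t - 1)) := by ring
    rw [e]
    linarith

/-- The multipliers. -/
lemma exists_multipliers {G : SimpleGraph V} {t : ℝ} (h : ¬ VecColorable G t) :
    ∃ (w : V → ℝ) (P : V → V → ℝ), (∀ v, 0 ≤ w v) ∧ (∀ u v, 0 ≤ P u v) ∧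
      (∀ u v, ¬ G.Adj u v → P u v = 0) ∧ 0 < ∑ u, ∑ v, P u v * (1 / (t - 1) + 1) ∧
      ∀ M : Matrix V V ℝ, M.PosSemidef →
        0 ≤ ∑ v, w v * (M v v - 1) + ∑ u, ∑ v, P u v * (M u v + 1 / (t - 1)) := by
  obtain ⟨f, hf⟩ := geometric_hahn_banach_open_point (slack_convex G (1 / (t - 1)))
    (slack_open G (1 / (t - 1))) (zero_notMem_slack h)
  rw [map_zero] at hf
  set τ : ℝ := 1 / (t - 1) with hτ
  set w : V → ℝ := fun v => -f (Pi.single v 1, 0) with hw
  set P : V → V → ℝ := fun u v => -f (0, Pi.single u (Pi.single v 1)) with hP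
  have hrep : ∀ p : (V → ℝ) × (V → V → ℝ),
      -f p = ∑ v, w v * p.1 v + ∑ u, ∑ v, P u v * p.2 u v := by
    intro p
    have e1 : p = (p.1, 0) + (0, p.2) := by ext <;> simp
    have e2 : (p.1, (0 : V → V → ℝ)) = ∑ v, p.1 v • (Pi.single v 1, 0) := by
      rw [Prod.ext_iff]
      constructor
      · funext x
        simp [Prod.fst_sum, Finset.sum_apply, Pi.single_apply]
      · simp [Prod.snd_sum]
    have e3 : ((0 : V → ℝ), p.2) =
        ∑ u, ∑ v, p.2 u v • ((0 : V → ℝ), (Pi.single u (Pi.single v 1) : V → V → ℝ)) := by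
      rw [Prod.ext_iff]
      constructor
      · simp [Prod.fst_sum]
      · funext x y
        simp only [Prod.snd_sum, Prod.smul_snd, Finset.sum_apply, Pi.smul_apply, smul_eq_mul]
        rw [Finset.sum_eq_single x]
        · rw [Finset.sum_eq_single y]
          · simp
          · intro b _ hb
            simp [Pi.single_apply, Ne.symm hb]
          · intro hy
            exact absurd (Finset.mem_univ _) hy
        · intro b _ hb
          apply Finset.sum_eq_zero
          intro c _
          simp [Pi.single_apply, Ne.symm hb]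
        · intro hx
          exact absurd (Finset.mem_univ _) hx
    have f1 : f (p.1, (0 : V → V → ℝ)) = ∑ v, p.1 v * f (Pi.single v 1, 0) := by
      rw [e2, map_sum]
      simp only [map_smul, smul_eq_mul]
    have f2 : f ((0 : V → ℝ), p.2) = ∑ u, ∑ v, p.2 u v *
        f ((0 : V → ℝ), (Pi.single u (Pi.single v 1) : V → V → ℝ)) := by
      rw [e3, map_sum]
      simp only [map_sum, map_smul, smul_eq_mul]
    have f3 : f p = f (p.1, (0 : V → V → ℝ)) + f ((0 : V → ℝ), p.2) := by
      rw [← map_add, ← e1]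
    rw [f3, f1, f2, neg_add]
    simp only [hw, hP, ← Finset.sum_neg_distrib]
    congr 1
    · refine Finset.sum_congr rfl fun v _ => ?_
      ring
    · refine Finset.sum_congr rfl fun u _ => Finset.sum_congr rfl fun v _ => ?_
      ring
  have hpos : ∀ p ∈ slack G τ, 0 < ∑ v, w v * p.1 v + ∑ u, ∑ v, P u v * p.2 u v := by
    intro p hp
    rw [← hrep]
    linarith [hf p hp]
  have hzero : (0 : Matrix V V ℝ).PosSemidef := Matrix.PosSemidef.zero
  have h0mem : ((0 : V → ℝ), (fun _ _ => τ + 1 : V → V → ℝ)) ∈ slack G τ :=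
    ⟨0, hzero, fun v => by simp, fun u v _ => by simp⟩
  have hF0 : ∀ p : (V → ℝ) × (V → V → ℝ), ∀ c : ℝ,
      (∀ a : ℝ, 0 ≤ a → 0 < c + a * (-f p)) → 0 ≤ -f p := by
    intro p c hc
    by_contra hneg
    push Not at hneg
    have h1 := hc (|c| / (f p)) (div_nonneg (abs_nonneg _) (by linarith))
    have h2 : |c| / f p * (-f p) = -|c| := by
      have : f p ≠ 0 := by linarith
      field_simp
    rw [h2] at h1
    linarith [le_abs_self c]
  have hw0 : ∀ v, 0 ≤ w v := by
    intro v
    apply hF0 (Pi.single v 1, 0) (-f ((0 : V → ℝ), (fun _ _ => τ + 1 : V → V → ℝ)))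
    intro a ha
    have hm : ((0 : V → ℝ), (fun _ _ => τ + 1 : V → V → ℝ)) +
        a • ((Pi.single v 1 : V → ℝ), (0 : V → V → ℝ)) ∈ slack G τ := by
      refine ⟨0, hzero, fun x => ?_, fun x y _ => by simp⟩
      have : 0 ≤ (Pi.single v (1 : ℝ) : V → ℝ) x := by
        rw [Pi.single_apply]; split_ifs <;> norm_num
      simp only [Matrix.zero_apply, Prod.fst_add, Prod.smul_fst, Pi.add_apply, Pi.smul_apply,
        Pi.zero_apply, smul_eq_mul]
      nlinarith [mul_nonneg ha this]
    have := hf _ hm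
    rw [map_add, map_smul, smul_eq_mul] at this
    linarith
  have hPmem : ∀ u v, ∀ a : ℝ, (0 ≤ a ∨ ¬ G.Adj u v) →
      ((0 : V → ℝ), (fun _ _ => τ + 1 : V → V → ℝ)) +
        a • ((0 : V → ℝ), (Pi.single u (Pi.single v 1) : V → V → ℝ)) ∈ slack G τ := by
    intro u v a ha
    refine ⟨0, hzero, fun x => by simp, fun x y hxy => ?_⟩
    simp only [Matrix.zero_apply, Prod.snd_add, Prod.smul_snd, Pi.add_apply, Pi.smul_apply,
      smul_eq_mul]
    by_cases hx : x = u
    · subst hx
      by_cases hy : y = v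
      · subst hy
        rcases ha with ha | ha
        · simp
          linarith
        · exact absurd hxy ha
      · simp [Pi.single_apply, hy]
    · simp [Pi.single_apply, hx]
  have hP0 : ∀ u v, 0 ≤ P u v := by
    intro u v
    apply hF0 (0, Pi.single u (Pi.single v 1))
      (-f ((0 : V → ℝ), (fun _ _ => τ + 1 : V → V → ℝ)))
    intro a ha
    have := hf _ (hPmem u v a (Or.inl ha))
    rw [map_add, map_smul, smul_eq_mul] at this
    linarith
  have hPne : ∀ u v, ¬ G.Adj u v → P u v = 0 := by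
    intro u v huv
    apply le_antisymm _ (hP0 u v)
    by_contra hneg
    push Not at hneg
    obtain ⟨c, hc⟩ : ∃ c, c = -f ((0 : V → ℝ), (fun _ _ => τ + 1 : V → V → ℝ)) := ⟨_, rfl⟩
    have := hf _ (hPmem u v (-(|c| + 1) / P u v) (Or.inr huv))
    rw [map_add, map_smul, smul_eq_mul] at this
    have e : -f ((0 : V → ℝ), (Pi.single u (Pi.single v 1) : V → V → ℝ)) = P u v := rfl
    have e2 : -(|c| + 1) / P u v * f ((0 : V → ℝ), (Pi.single u (Pi.single v 1) : V → V → ℝ)) =
        |c| + 1 := by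
      rw [show f ((0 : V → ℝ), (Pi.single u (Pi.single v 1) : V → V → ℝ)) = -P u v by
        rw [← e, neg_neg]]
      field_simp
    rw [e2] at this
    linarith [le_abs_self c]
  refine ⟨w, P, hw0, hP0, hPne, ?_, ?_⟩
  · have := hpos _ h0mem
    simpa [add_comm] using this
  · intro M hM
    by_contra hneg
    push Not at hneg
    obtain ⟨L, hL⟩ : ∃ L, L = ∑ v, w v * (M v v - 1) + ∑ u, ∑ v, P u v * (M u v + τ) := ⟨_, rfl⟩
    obtain ⟨S, hS⟩ : ∃ S, S = ∑ v, w v + ∑ u, ∑ v, P u v := ⟨_, rfl⟩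
    rw [← hL] at hneg
    have hS0 : 0 ≤ S := by
      rw [hS]
      exact add_nonneg (Finset.sum_nonneg fun v _ => hw0 v)
        (Finset.sum_nonneg fun u _ => Finset.sum_nonneg fun v _ => hP0 u v)
    obtain ⟨e, he⟩ : ∃ e, e = -L / (S + 1) := ⟨_, rfl⟩
    have he0 : 0 < e := by rw [he]; exact div_pos (by linarith) (by linarith)
    have hm : ((fun v => M v v - 1 + e : V → ℝ), (fun u v => M u v + τ + e : V → V → ℝ)) ∈
        slack G τ := ⟨M, hM, fun v => by simp [he0], fun u v _ => by simp [he0]⟩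
    have h1 := hpos _ hm
    have h2 : ∑ v, w v * (M v v - 1 + e) + ∑ u, ∑ v, P u v * (M u v + τ + e) = L + e * S := by
      rw [hL, hS]
      simp only [mul_add, Finset.sum_add_distrib, Finset.mul_sum]
      have e1 : ∑ v, w v * e = ∑ v, e * w v := Finset.sum_congr rfl fun v _ => mul_comm _ _
      have e2 : ∑ u, ∑ v, P u v * e = ∑ u, ∑ v, e * P u v :=
        Finset.sum_congr rfl fun u _ => Finset.sum_congr rfl fun v _ => mul_comm _ _
      rw [e1, e2]
      ring
    simp only at h1
    rw [h2] at h1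
    have h3 : e * (S + 1) = -L := by
      rw [he]
      have : S + 1 ≠ 0 := by linarith
      field_simp
    linarith

end Pool.Agent.H86.EH
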