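import Mathlib
import Pool.Agent.H86.EH.Theta4
import Pool.Agent.H86.EH.Vec

set_option autoImplicit false

namespace Pool.Agent.H86.EH

open Finset SimpleGraph

lemma quad_eq {V : Type} [Fintype V] [DecidableEq V] (W : Matrix V V ℝ) (x : V → ℝ) :
    star x ⬝ᵥ (W + 1).mulVec x = ∑ u, ∑ v, x u * W u v * x v + ∑ u, x u ^ 2 := by
  rw [Matrix.add_mulVec, Matrix.one_mulVec, dotProduct_add]
  congr 1
  · simp only [dotProduct, Matrix.mulVec, star_trivial, Finset.mul_sum]
    refine Finset.sum_congr rfl fun u _ => Finset.sum_congr rfl fun v _ => ?_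
    ring
  · simp only [dotProduct, star_trivial]
    refine Finset.sum_congr rfl fun u _ => ?_
    ring

/-- Duality: a graph that is not vector `t`-colourable has a weighting of the edges with least
eigenvalue at least `-1` and a large eigenvalue. -/
theorem exists_weights {V : Type} [Fintype V] [DecidableEq V] {G : SimpleGraph V} {t : ℝ}
    (ht : 1 < t) (h : ¬ VecColorable G t) : ∃ (W : Matrix V V ℝ) (x : V → ℝ),
      (W + 1).PosSemidef ∧ (∀ u v, 0 ≤ W u v) ∧ (∀ u v, ¬ G.Adj u v → W u v = 0) ∧ x ≠ 0 ∧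
      (t - 1) / 2 * ∑ u, x u ^ 2 ≤ ∑ u, ∑ v, x u * W u v * x v := by
  obtain ⟨w, P, hw, hP, hPG, hPpos, hall⟩ := exists_multipliers h
  have ht1 : 0 < t - 1 := by linarith
  have hτ : 0 < 1 / (t - 1) := by positivity
  obtain ⟨A, hA⟩ : ∃ A, A = ∑ u, ∑ v, P u v := ⟨_, rfl⟩
  have hA0 : 0 < A := by
    have h1 : ∑ u, ∑ v, P u v * (1 / (t - 1) + 1) = A * (1 / (t - 1) + 1) := by
      rw [hA, Finset.sum_mul]
      exact Finset.sum_congr rfl fun u _ => (Finset.sum_mul _ _ _).symm
    rw [h1] at hPpos
    exact (pos_iff_pos_of_mul_pos hPpos).2 (by linarith)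
  have hne : Nonempty V := by
    by_contra hcon
    rw [not_nonempty_iff] at hcon
    rw [hA] at hA0
    simp at hA0
  have hn : (0 : ℝ) < Fintype.card V := by exact_mod_cast Fintype.card_pos (α := V)
  -- the case `M = 0`
  have hwA : (t - 1) * ∑ v, w v ≤ A := by
    have h1 := hall 0 Matrix.PosSemidef.zero
    have h2 : ∑ v, w v * ((0 : Matrix V V ℝ) v v - 1) +
        ∑ u, ∑ v, P u v * ((0 : Matrix V V ℝ) u v + 1 / (t - 1)) =
        -∑ v, w v + A * (1 / (t - 1)) := by
      rw [hA, Finset.sum_mul, ← Finset.sum_neg_distrib]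
      congr 1
      · refine Finset.sum_congr rfl fun v _ => ?_
        simp
      · refine Finset.sum_congr rfl fun u _ => ?_
        rw [Finset.sum_mul]
        refine Finset.sum_congr rfl fun v _ => ?_
        simp
    rw [h2] at h1
    have h3 : ∑ v, w v ≤ A * (1 / (t - 1)) := by linarith
    calc (t - 1) * ∑ v, w v ≤ (t - 1) * (A * (1 / (t - 1))) :=
          mul_le_mul_of_nonneg_left h3 ht1.le
      _ = A := by field_simp
  -- the quadratic form
  have hQ : ∀ y : V → ℝ, 0 ≤ ∑ v, w v * y v ^ 2 + ∑ u, ∑ v, P u v * (y u * y v) := by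
    intro y
    obtain ⟨Q, hQ⟩ : ∃ Q, Q = ∑ v, w v * y v ^ 2 + ∑ u, ∑ v, P u v * (y u * y v) := ⟨_, rfl⟩
    rw [← hQ]
    by_contra hneg
    push Not at hneg
    obtain ⟨K, hK⟩ : ∃ K, K = -∑ v, w v + A * (1 / (t - 1)) := ⟨_, rfl⟩
    have h1 : ∀ a : ℝ, 0 ≤ a → 0 ≤ a * Q + K := by
      intro a ha
      have h2 := hall (a • Matrix.vecMulVec y (star y))
        ((Matrix.posSemidef_vecMulVec_self_star y).smul ha)
      have h3 : ∑ v, w v * ((a • Matrix.vecMulVec y (star y)) v v - 1) +
          ∑ u, ∑ v, P u v * ((a • Matrix.vecMulVec y (star y)) u v + 1 / (t - 1)) =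
          a * Q + K := by
        rw [hQ, hK, hA]
        simp only [Matrix.smul_apply, Matrix.vecMulVec_apply, star_trivial, smul_eq_mul,
          mul_add, mul_sub, mul_one, Finset.sum_add_distrib, Finset.sum_sub_distrib,
          Finset.mul_sum, Finset.sum_mul]
        have e1 : ∑ v, w v * (a * (y v * y v)) = ∑ v, a * (w v * y v ^ 2) :=
          Finset.sum_congr rfl fun v _ => by ring
        have e2 : ∑ u, ∑ v, P u v * (a * (y u * y v)) = ∑ u, ∑ v, a * (P u v * (y u * y v)) :=
          Finset.sum_congr rfl fun u _ => Finset.sum_congr rfl fun v _ => by ring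
        rw [e1, e2]
        ring
      rw [h3] at h2
      exact h2
    have h2 := h1 ((|K| + 1) / (-Q)) (div_nonneg (by positivity) (by linarith))
    have h3 : (|K| + 1) / (-Q) * Q = -(|K| + 1) := by
      have : Q ≠ 0 := by linarith
      field_simp
    rw [h3] at h2
    linarith [le_abs_self K]
  -- the perturbed weights
  obtain ⟨e, he⟩ : ∃ e, e = A / ((t - 1) * Fintype.card V) := ⟨_, rfl⟩
  have he0 : 0 < e := by rw [he]; positivity
  have hx2 : ∀ v, Real.sqrt (w v + e) ^ 2 = w v + e := fun v =>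
    Real.sq_sqrt (by have := hw v; linarith)
  have hx0 : ∀ v, 0 < Real.sqrt (w v + e) := fun v =>
    Real.sqrt_pos.2 (by have := hw v; linarith)
  obtain ⟨W, hWe⟩ : ∃ W : Matrix V V ℝ, ∀ u v, W u v =
      (P u v + P v u) / 2 / (Real.sqrt (w u + e) * Real.sqrt (w v + e)) :=
    ⟨Matrix.of fun u v => (P u v + P v u) / 2 / (Real.sqrt (w u + e) * Real.sqrt (w v + e)),
      fun _ _ => rfl⟩
  refine ⟨W, fun v => Real.sqrt (w v + e), ?_, ?_, ?_, ?_, ?_⟩
  · apply Matrix.PosSemidef.of_dotProduct_mulVec_nonneg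
    · apply Matrix.IsHermitian.add _ Matrix.isHermitian_one
      ext u v
      simp only [Matrix.conjTranspose_apply, star_trivial, hWe]
      rw [add_comm (P v u), mul_comm (Real.sqrt (w v + e))]
    · intro y
      rw [quad_eq]
      have h1 := hQ (fun v => y v / Real.sqrt (w v + e))
      have e1 : ∑ u, ∑ v, y u * ((P u v + P v u) / 2 /
          (Real.sqrt (w u + e) * Real.sqrt (w v + e))) * y v =
          ∑ u, ∑ v, P u v * (y u / Real.sqrt (w u + e) * (y v / Real.sqrt (w v + e))) := by
        have e2 : ∀ F : V → V → ℝ, ∑ u, ∑ v, (F u v + F v u) / 2 = ∑ u, ∑ v, F u v := by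
          intro F
          simp only [add_div, Finset.sum_add_distrib, ← Finset.sum_div]
          rw [Finset.sum_comm (f := fun u v => F v u)]
          ring
        rw [← e2 (fun u v => P u v * (y u / Real.sqrt (w u + e) * (y v / Real.sqrt (w v + e))))]
        refine Finset.sum_congr rfl fun u _ => Finset.sum_congr rfl fun v _ => ?_
        have := (hx0 u).ne'
        have := (hx0 v).ne'
        field_simp
      have e3 : ∑ v, w v * (y v / Real.sqrt (w v + e)) ^ 2 ≤ ∑ v, y v ^ 2 := by
        refine Finset.sum_le_sum fun v _ => ?_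
        rw [div_pow, hx2, mul_div_assoc', div_le_iff₀ (by have := hw v; linarith)]
        nlinarith [sq_nonneg (y v), hw v]
      simp only [hWe]
      rw [e1]
      linarith
  · intro u v
    have := hP u v
    have := hP v u
    have := hx0 u
    have := hx0 v
    rw [hWe]
    positivity
  · intro u v huv
    rw [hWe, hPG u v huv, hPG v u (fun h' => huv h'.symm)]
    simp
  · intro h0
    have := congrFun h0 hne.some
    exact (hx0 _).ne' this
  · have e1 : ∑ u, ∑ v, Real.sqrt (w u + e) * ((P u v + P v u) / 2 /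
        (Real.sqrt (w u + e) * Real.sqrt (w v + e))) * Real.sqrt (w v + e) = A := by
      have e2 : ∑ u, ∑ v, (P u v + P v u) / 2 = A := by
        simp only [add_div, Finset.sum_add_distrib, ← Finset.sum_div]
        rw [Finset.sum_comm (f := fun u v => P v u), hA]
        ring
      rw [← e2]
      refine Finset.sum_congr rfl fun u _ => Finset.sum_congr rfl fun v _ => ?_
      have := (hx0 u).ne'
      have := (hx0 v).ne'
      field_simp
    simp only [hWe]
    rw [e1]
    simp only [hx2, Finset.sum_add_distrib, Finset.sum_const, Finset.card_univ, nsmul_eq_mul]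
    have e3 : (t - 1) * (Fintype.card V * e) = A := by
      rw [he]; field_simp
    linarith

/-- The Erdős–Hajnal statement for graphs whose vector chromatic number is at least a constant
times the logarithm of the maximum degree. -/
theorem vector_core (k g : ℕ) (hk : 1 ≤ k) : ∃ C : ℝ, 0 < C ∧ ∀ (V : Type) [Fintype V]
    [DecidableEq V] (G : SimpleGraph V) [DecidableRel G.Adj],
    ¬ VecColorable G (C * Nat.log 2 (G.maxDegree + 2)) →
    ∃ H : SimpleGraph V, H ≤ G ∧ (g : ℕ∞) ≤ H.egirth ∧ ¬ FracColorable H k := by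
  obtain ⟨C, hC0, hC⟩ := eigenvalue_core k g hk
  refine ⟨6 * C + 2, by linarith, ?_⟩
  intro V _ _ G _ h
  obtain ⟨L, hL⟩ : ∃ L, L = Nat.log 2 (G.maxDegree + 2) := ⟨_, rfl⟩
  rw [← hL] at h
  have hL1 : 1 ≤ L := by
    rw [hL]
    exact Nat.log_pos (by norm_num) (by omega)
  have hL1' : (1 : ℝ) ≤ L := by exact_mod_cast hL1
  have ht : 1 < (6 * C + 2) * (L : ℝ) := by nlinarith
  obtain ⟨W, x, hW, h0, hG, hx, hxW⟩ := exists_weights ht h
  refine hC V G W hW h0 hG (L + 1) x hx ?_ ?_
  · intro u
    have hdiag : ∀ u, W u u = 0 := fun u => hG u u (G.loopless.irrefl u)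
    have h1 : ∑ v, W u v ≤ G.degree u := by
      rw [← G.card_neighborFinset_eq_degree]
      calc ∑ v, W u v = ∑ v ∈ G.neighborFinset u, W u v := by
            symm
            apply Finset.sum_subset (Finset.subset_univ _)
            intro v _ hv
            apply hG
            rwa [SimpleGraph.mem_neighborFinset] at hv
        _ ≤ ∑ v ∈ G.neighborFinset u, 1 := by
            refine Finset.sum_le_sum fun v hv => ?_
            rw [SimpleGraph.mem_neighborFinset] at hv
            exact entry_le_one W hW u v hv.ne (hdiag u) (hdiag v)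
        _ = _ := by simp
    have h2 : G.degree u ≤ 2 ^ (L + 1) := by
      have h3 := Nat.lt_pow_succ_log_self (b := 2) (by norm_num) (G.maxDegree + 2)
      rw [← hL] at h3
      have h4 := G.degree_le_maxDegree u
      have h5 : (L + 1 : ℕ) = L.succ := rfl
      rw [h5]
      omega
    calc ∑ v, W u v ≤ G.degree u := h1
      _ ≤ ((2 ^ (L + 1) : ℕ) : ℝ) := by exact_mod_cast h2
      _ = 2 ^ (L + 1) := by push_cast; ring
  · refine le_trans ?_ hxW
    have h4 : 0 ≤ ∑ u, x u ^ 2 := Finset.sum_nonneg fun u _ => sq_nonneg _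
    apply mul_le_mul_of_nonneg_right _ h4
    push_cast
    nlinarith

end Pool.Agent.H86.EH
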